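import Mathlib

/-! Definitions used in the statement: Borel reducibility, countable Borel equivalence relations,
free and essentially free relations, the space `S n` of rank `n` subgroups of `ℚ^n` and the
isomorphism relation on it. -/

namespace Pool.Agent.P.MP_98674e_lc

/-- `E ≤_B F`: there is a Borel map `f` with `x E x' ↔ f x F f x'`. -/
def BorelReducible {X Y : Type} [MeasurableSpace X] [MeasurableSpace Y]
    (E : X → X → Prop) (F : Y → Y → Prop) : Prop :=
  ∃ f : X → Y, Measurable f ∧ ∀ x x' : X, E x x' ↔ F (f x) (f x')

/-- `F` is a countable Borel equivalence relation: an equivalence relation, Borel as a subset of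
`Y × Y`, all of whose classes are countable. -/
def IsCBER {Y : Type} [MeasurableSpace Y] (F : Y → Y → Prop) : Prop :=
  Equivalence F ∧ MeasurableSet {p : Y × Y | F p.1 p.2} ∧ ∀ y : Y, {y' : Y | F y y'}.Countable

/-- `F` is free: it is the orbit equivalence relation of a free Borel action of a countable
(discrete) group. -/
def IsFree {Y : Type} [MeasurableSpace Y] (F : Y → Y → Prop) : Prop :=
  ∃ (G : Type) (_ : Group G) (_ : Countable G) (_ : MulAction G Y),
    (∀ g : G, Measurable fun y : Y => g • y) ∧
    (∀ (g : G) (y : Y), g • y = y → g = 1) ∧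
    ∀ y y' : Y, F y y' ↔ ∃ g : G, g • y = y'

/-- `E` is essentially free: it is Borel bireducible with a free countable Borel equivalence
relation on a standard Borel space. -/
def EssentiallyFree {X : Type} [MeasurableSpace X] (E : X → X → Prop) : Prop :=
  ∃ (Y : Type) (_ : MeasurableSpace Y) (_ : StandardBorelSpace Y) (F : Y → Y → Prop),
    IsCBER F ∧ IsFree F ∧ BorelReducible E F ∧ BorelReducible F E

/-- The set `S_n` of subgroups of `ℚ^n` of rank `n`, that is, spanning `ℚ^n` over `ℚ`. -/
def S (n : ℕ) : Type :=
  {A : AddSubgroup (Fin n → ℚ) // Submodule.span ℚ (A : Set (Fin n → ℚ)) = ⊤}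

/-- The Borel structure on `S_n` inherited from the product Borel structure of `2^(ℚ^n)`. -/
instance instMeasurableSpaceS (n : ℕ) : MeasurableSpace (S n) :=
  MeasurableSpace.comap (fun A : S n => (A.1 : Set (Fin n → ℚ))) Set.instMeasurableSpace

/-- The relation `≅_n`: the two subgroups are isomorphic as abstract abelian groups. -/
def Iso (n : ℕ) (A B : S n) : Prop := Nonempty (A.1 ≃+ B.1)

end Pool.Agent.P.MP_98674e_lc
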