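import Mathlib
import Pool.Agent.P.MP_98674e_lc.Defs

/-! A Borel cocycle into a countable group whose kernel is exactly the stabilizers makes the orbit
equivalence relation essentially free. -/

set_option linter.unusedSectionVars false
set_option linter.style.haveILetI false

namespace Pool.Agent.P.MP_98674e_lc

open Set

section countable

variable {X : Type} [MeasurableSpace X] {G : Type} [Group G] [MulAction G X]
  {L : Type} [Group L]

/-- The skew product action of `G` on `X × L`. -/
def skew (β : G → X → L) (g : G) (p : X × L) : X × L := (g • p.1, β g p.1 * p.2)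

/-- The points of `X × L` that minimise the code of the second coordinate in their class. -/
def IsMinPt (β : G → X → L) (enc : L → ℕ) (p : X × L) : Prop :=
  ∀ g : G, enc p.2 ≤ enc (skew β g p).2

theorem skew_mul (β : G → X → L) (hcoc : ∀ g h x, β (g * h) x = β g (h • x) * β h x)
    (g h : G) (p : X × L) : skew β (g * h) p = skew β g (skew β h p) := by
  simp [skew, hcoc, mul_smul, mul_assoc]

theorem skew_one (β : G → X → L) (hker : ∀ g x, β g x = 1 ↔ g • x = x) (p : X × L) :
    skew β 1 p = p := by
  have : β 1 p.1 = 1 := (hker 1 p.1).2 (one_smul _ _)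
  simp [skew, this]

theorem exists_min (β : G → X → L) (hcoc : ∀ g h x, β (g * h) x = β g (h • x) * β h x)
    (enc : L → ℕ) (p : X × L) : ∃ g : G, IsMinPt β enc (skew β g p) := by
  obtain ⟨g, hg⟩ := (wellFounded_lt (α := ℕ)).has_min
    (range fun g : G => enc (skew β g p).2) ⟨_, 1, rfl⟩
  obtain ⟨⟨g0, rfl⟩, hmin⟩ := hg
  refine ⟨g0, fun h => ?_⟩
  rw [← skew_mul β hcoc]
  exact not_lt.1 (hmin _ ⟨h * g0, rfl⟩)

theorem min_unique (β : G → X → L) (hcoc : ∀ g h x, β (g * h) x = β g (h • x) * β h x)
    (hker : ∀ g x, β g x = 1 ↔ g • x = x) (enc : L → ℕ) (henc : Function.Injective enc)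
    (p : X × L) (g : G) (hp : IsMinPt β enc p) (hq : IsMinPt β enc (skew β g p)) :
    skew β g p = p := by
  have h1 := hp g
  have h2 := hq g⁻¹
  rw [← skew_mul β hcoc, inv_mul_cancel, skew_one β hker] at h2
  have h3 : (skew β g p).2 = p.2 := henc (le_antisymm h2 h1)
  have h4 : β g p.1 = 1 := by simpa [skew] using h3
  have h5 := (hker g p.1).1 h4
  ext <;> simp [skew, h4, h5]

theorem essFree_of_cocycle_countable [StandardBorelSpace X] [Countable G] [Countable L]
    (hG : ∀ g : G, Measurable fun x : X => g • x) (β : G → X → L)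
    (hcoc : ∀ g h x, β (g * h) x = β g (h • x) * β h x)
    (hker : ∀ g x, β g x = 1 ↔ g • x = x)
    (hmeas : ∀ g l, MeasurableSet {x | β g x = l}) :
    EssentiallyFree (fun x y : X => ∃ g : G, g • x = y) := by
  classical
  letI : MeasurableSpace L := ⊤
  haveI : DiscreteMeasurableSpace L := ⟨fun _ => trivial⟩
  obtain ⟨enc, henc⟩ := Countable.exists_injective_nat L
  obtain ⟨e, he⟩ := exists_surjective_nat G
  have hβ : ∀ g, Measurable (β g) := fun g =>
    measurable_to_countable' fun l => hmeas g l
  have hskew : ∀ g, Measurable (skew β g) := by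
    intro g
    refine Measurable.prodMk ((hG g).comp measurable_fst) ?_
    refine measurable_from_prod_countable_left fun l => ?_
    exact (Measurable.of_discrete (f := fun a : L => a * l)).comp (hβ g)
  have hencm : Measurable enc := Measurable.of_discrete
  have hT : MeasurableSet {p : X × L | IsMinPt β enc p} := by
    have : {p : X × L | IsMinPt β enc p} = ⋂ g : G, {p | enc p.2 ≤ enc (skew β g p).2} := by
      ext p; simp [IsMinPt]
    rw [this]
    refine MeasurableSet.iInter fun g => ?_
    exact measurableSet_le (hencm.comp measurable_snd)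
      (hencm.comp (measurable_snd.comp (hskew g)))
  have hex : ∀ p : X × L, ∃ n, IsMinPt β enc (skew β (e n) p) := by
    intro p
    obtain ⟨g, hg⟩ := exists_min β hcoc enc p
    obtain ⟨n, rfl⟩ := he g
    exact ⟨n, hg⟩
  let T : Set (X × L) := {p | IsMinPt β enc p}
  let rep : X × L → T := fun p => ⟨skew β (e (Nat.find (hex p))) p, Nat.find_spec (hex p)⟩
  have hrepm : Measurable rep := by
    refine Measurable.subtype_mk ?_
    exact Measurable.find (f := fun n p => skew β (e n) p) (fun n => hskew (e n))
      (fun n => hT.preimage (hskew (e n))) hex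
  have hrep_spec : ∀ p, ∃ g, (rep p).1 = skew β g p := fun p => ⟨_, rfl⟩
  have hrep_eq : ∀ (p : X × L) (g : G) (t : T), skew β g p = t.1 → rep p = t := by
    intro p g t ht
    obtain ⟨h, hh⟩ := hrep_spec p
    apply Subtype.ext
    have h1 : (rep p).1 = skew β (h * g⁻¹) t.1 := by
      rw [← ht, ← skew_mul β hcoc, hh]; simp
    have h2 := min_unique β hcoc hker enc henc t.1 (h * g⁻¹) t.2 (h1 ▸ (rep p).2)
    rw [h1, h2]
  have hskew_right : ∀ (g : G) (x : X) (l m : L),
      skew β g (x, l * m) = ((skew β g (x, l)).1, (skew β g (x, l)).2 * m) := by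
    intro g x l m; simp [skew, mul_assoc]
  letI act : MulAction L T :=
    { smul := fun m t => rep (t.1.1, t.1.2 * m⁻¹)
      one_smul := by
        intro t
        change rep (t.1.1, t.1.2 * (1 : L)⁻¹) = t
        apply hrep_eq _ 1
        simp [skew_one β hker]
      mul_smul := by
        intro a b t
        change rep (t.1.1, t.1.2 * (a * b)⁻¹) =
          rep ((rep (t.1.1, t.1.2 * b⁻¹)).1.1, (rep (t.1.1, t.1.2 * b⁻¹)).1.2 * a⁻¹)
        obtain ⟨g, hg⟩ := hrep_spec (t.1.1, t.1.2 * b⁻¹)
        obtain ⟨h, hh⟩ := hrep_spec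
          ((rep (t.1.1, t.1.2 * b⁻¹)).1.1, (rep (t.1.1, t.1.2 * b⁻¹)).1.2 * a⁻¹)
        apply hrep_eq _ (h * g)
        rw [hh, skew_mul β hcoc, hg, mul_inv_rev, ← mul_assoc, hskew_right] }
  have hsmul : ∀ (m : L) (t : T), m • t = rep (t.1.1, t.1.2 * m⁻¹) := fun _ _ => rfl
  have hactm : ∀ m : L, Measurable fun t : T => m • t := by
    intro m
    simp only [hsmul]
    refine hrepm.comp (Measurable.prodMk (measurable_fst.comp measurable_subtype_coe) ?_)
    exact (Measurable.of_discrete (f := fun a : L => a * m⁻¹)).comp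
      (measurable_snd.comp measurable_subtype_coe)
  have horb : ∀ t t' : T, (∃ m : L, m • t = t') ↔ ∃ g : G, g • t.1.1 = t'.1.1 := by
    intro t t'
    constructor
    · rintro ⟨m, rfl⟩
      obtain ⟨g, hg⟩ := hrep_spec (t.1.1, t.1.2 * m⁻¹)
      exact ⟨g, by rw [hsmul, hg]; rfl⟩
    · rintro ⟨g, hg⟩
      refine ⟨(t'.1.2)⁻¹ * (β g t.1.1 * t.1.2), ?_⟩
      rw [hsmul]
      apply hrep_eq _ g
      ext
      · simp [skew, hg]
      · simp [skew, mul_assoc]
  haveI : StandardBorelSpace T := hT.standardBorel
  refine ⟨T, inferInstance, inferInstance, fun t t' => ∃ m : L, m • t = t', ⟨?_, ?_, ?_⟩,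
    ⟨L, inferInstance, inferInstance, act, hactm, ?_, fun _ _ => Iff.rfl⟩, ?_, ?_⟩
  · refine ⟨fun t => ⟨1, one_smul _ _⟩, ?_, ?_⟩
    · rintro t t' ⟨m, rfl⟩
      exact ⟨m⁻¹, inv_smul_smul _ _⟩
    · rintro t t' t'' ⟨m, rfl⟩ ⟨m', rfl⟩
      exact ⟨m' * m, mul_smul _ _ _⟩
  · have : {p : T × T | ∃ m : L, m • p.1 = p.2} = ⋃ m : L, {p : T × T | m • p.1 = p.2} := by
      ext p; simp
    rw [this]
    exact MeasurableSet.iUnion fun m =>
      measurableSet_eq_fun ((hactm m).comp measurable_fst) measurable_snd
  · intro t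
    exact countable_range (fun m : L => m • t)
  · intro m t hmt
    rw [hsmul] at hmt
    obtain ⟨g, hg⟩ := hrep_spec (t.1.1, t.1.2 * m⁻¹)
    rw [hmt] at hg
    have h1 : g • t.1.1 = t.1.1 := by
      have := congrArg Prod.fst hg
      simpa [skew] using this.symm
    have h2 := congrArg Prod.snd hg
    simp only [skew, (hker g t.1.1).2 h1, one_mul] at h2
    have h3 : m⁻¹ = 1 := by simpa using h2
    simpa using h3
  · refine ⟨fun x => rep (x, 1), hrepm.comp (measurable_id.prodMk measurable_const), ?_⟩
    intro x x'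
    beta_reduce
    rw [horb]
    obtain ⟨g, hg⟩ := hrep_spec (x, 1)
    obtain ⟨g', hg'⟩ := hrep_spec (x', 1)
    rw [hg, hg']
    constructor
    · rintro ⟨h, rfl⟩
      exact ⟨g' * h * g⁻¹, by simp [skew, mul_smul]⟩
    · rintro ⟨h, hh⟩
      refine ⟨g'⁻¹ * h * g, ?_⟩
      simp only [skew] at hh
      rw [mul_smul, mul_smul, hh, inv_smul_smul]
  · exact ⟨fun t => t.1.1, measurable_fst.comp measurable_subtype_coe, horb⟩

end countable

/-- Piecewise constant: countable range and measurable fibres. -/
def PC {X : Type} [MeasurableSpace X] {C : Type} (f : X → C) : Prop :=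
  (range f).Countable ∧ ∀ c, MeasurableSet {x | f x = c}

section PC

variable {X : Type} [MeasurableSpace X] {C D : Type}

theorem PC.of_determined {f : X → C} (hf : PC f) {h : X → D}
    (hd : ∀ x y, f x = f y → h x = h y) : PC h := by
  classical
  have hc : Countable (range f) := hf.1.to_subtype
  constructor
  · have : range h ⊆ range fun c : range f => h c.2.choose := by
      rintro _ ⟨x, rfl⟩
      exact ⟨⟨f x, x, rfl⟩, hd _ _ (Exists.choose_spec (⟨x, rfl⟩ : ∃ y, f y = f x))⟩
    exact (countable_range _).mono this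
  · intro d
    have : {x | h x = d} = ⋃ c : {c : range f // h c.2.choose = d}, {x | f x = c.1.1} := by
      ext x
      simp only [mem_ofPred_eq, mem_iUnion]
      constructor
      · intro hx
        refine ⟨⟨⟨f x, x, rfl⟩, ?_⟩, rfl⟩
        rw [← hx]
        exact hd _ _ (Exists.choose_spec (⟨x, rfl⟩ : ∃ y, f y = f x))
      · rintro ⟨⟨c, hc⟩, hx⟩
        rw [← hc]
        exact hd _ _ (hx.trans c.2.choose_spec.symm)
    rw [this]
    exact MeasurableSet.iUnion fun c => hf.2 _

theorem PC.comp {f : X → C} (hf : PC f) (φ : C → D) : PC fun x => φ (f x) :=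
  hf.of_determined fun _ _ h => by rw [h]

theorem PC.const (c : C) : PC fun _ : X => c := by
  constructor
  · exact (countable_singleton c).mono (by rintro _ ⟨x, rfl⟩; rfl)
  · intro d
    by_cases h : c = d <;> simp [h]

theorem PC.precomp {Y : Type} [MeasurableSpace Y] {f : X → C} (hf : PC f) {u : Y → X}
    (hu : Measurable u) : PC fun y => f (u y) :=
  ⟨hf.1.mono (by rintro _ ⟨y, rfl⟩; exact ⟨u y, rfl⟩), fun c => (hf.2 c).preimage hu⟩

theorem PC.glue {u : X → C} (hu : PC u) {h : C → X → D} (hh : ∀ c, PC (h c)) :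
    PC fun x => h (u x) x := by
  have hc : Countable (range u) := hu.1.to_subtype
  constructor
  · have : (range fun x => h (u x) x) ⊆ ⋃ c : range u, range (h c.1) := by
      rintro _ ⟨x, rfl⟩
      exact mem_iUnion.2 ⟨⟨u x, x, rfl⟩, x, rfl⟩
    exact (countable_iUnion fun c : range u => (hh c.1).1).mono this
  · intro d
    have : {x | h (u x) x = d} = ⋃ c : range u, {x | u x = c.1} ∩ {x | h c.1 x = d} := by
      ext x
      simp only [mem_ofPred_eq, mem_iUnion, mem_inter_iff]
      constructor
      · intro hx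
        exact ⟨⟨u x, x, rfl⟩, rfl, hx⟩
      · rintro ⟨c, h1, h2⟩
        rw [h1, h2]
    rw [this]
    exact MeasurableSet.iUnion fun c => (hu.2 _).inter ((hh _).2 _)

theorem PC.prod {f : X → C} {h : X → D} (hf : PC f) (hh : PC h) : PC fun x => (f x, h x) :=
  PC.glue (h := fun c x => (c, h x)) hf fun c => hh.comp fun d => (c, d)

theorem PC.finset {ι : Type} (F : Finset ι) {f : ι → X → C} (hf : ∀ i, PC (f i)) {h : X → D}
    (hd : ∀ x y, (∀ i ∈ F, f i x = f i y) → h x = h y) : PC h := by
  classical
  induction F using Finset.induction_on generalizing D with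
  | empty =>
    exact (PC.const (X := X) ()).of_determined fun x y _ => hd x y (by simp)
  | insert a F ha ih =>
    have h1 : PC fun x => fun i : F => f i.1 x :=
      ih (h := fun x => fun i : F => f i.1 x) fun x y hxy => funext fun i => hxy i.1 i.2
    refine ((hf a).prod h1).of_determined fun x y hxy => hd x y ?_
    intro i hi
    rcases Finset.mem_insert.1 hi with rfl | hi
    · exact congrArg Prod.fst hxy
    · exact congrFun (congrArg Prod.snd hxy) ⟨i, hi⟩

theorem PC.of_set {V : Type} [Countable V] {f : X → Set V} (hc : (range f).Countable)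
    (hm : ∀ v, Measurable fun x => v ∈ f x) : PC f :=
  ⟨hc, fun c => (measurable_set_iff.2 hm) (measurableSet_singleton c)⟩

theorem PC.of_nat {f : X → ℕ} (hm : Measurable f) : PC f :=
  ⟨to_countable _, fun c => hm (measurableSet_singleton c)⟩

end PC

theorem essFree_of_cocycle {X : Type} [MeasurableSpace X] [StandardBorelSpace X]
    {G : Type} [Group G] [Countable G] [MulAction G X] {L : Type} [Group L]
    (hG : ∀ g : G, Measurable fun x : X => g • x) (β : G → X → L)
    (hcoc : ∀ g h x, β (g * h) x = β g (h • x) * β h x)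
    (hker : ∀ g x, β g x = 1 ↔ g • x = x) (hpc : ∀ g, PC (β g)) :
    EssentiallyFree (fun x y : X => ∃ g : G, g • x = y) := by
  let s : Set L := ⋃ g, range (β g)
  have hs : s.Countable := countable_iUnion fun g => (hpc g).1
  haveI : Countable s := hs.to_subtype
  haveI : Countable (Subgroup.closure s) := by
    rw [FreeGroup.closure_eq_range]
    exact (countable_range _).to_subtype
  let β' : G → X → Subgroup.closure s := fun g x =>
    ⟨β g x, Subgroup.subset_closure (mem_iUnion.2 ⟨g, x, rfl⟩)⟩
  refine essFree_of_cocycle_countable hG β' ?_ ?_ ?_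
  · intro g h x
    exact Subtype.ext (hcoc g h x)
  · intro g x
    rw [← hker, Subtype.ext_iff]
    rfl
  · intro g l
    have : {x | β' g x = l} = {x | β g x = l.1} := by
      ext x; simp [β', Subtype.ext_iff]
    rw [this]
    exact (hpc g).2 _

end Pool.Agent.P.MP_98674e_lc
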