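import Mathlib
import Pool.Agent.P.MP_98674e_lc.Cocycle

/-! From almost equivariant data to a cocycle whose kernel is the stabilizers. -/

set_option linter.unusedSectionVars false
set_option linter.style.haveILetI false

namespace Pool.Agent.P.MP_98674e_lc

open Set
open scoped Pointwise

section conj

variable {G : Type} [Group G]

/-- Conjugacy of subgroups. -/
def conjSetoid (G : Type) [Group G] : Setoid (Subgroup G) where
  r H K := ∃ g : G, ∀ s, s ∈ K ↔ g⁻¹ * s * g ∈ H
  iseqv :=
    { refl := fun H => ⟨1, by simp⟩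
      symm := by
        rintro H K ⟨g, hg⟩
        exact ⟨g⁻¹, fun s => by rw [hg]; simp [mul_assoc]⟩
      trans := by
        rintro H K M ⟨g, hg⟩ ⟨h, hh⟩
        exact ⟨h * g, fun s => by rw [hh, hg]; simp [mul_assoc]⟩ }

/-- A chosen representative of the conjugacy class. -/
noncomputable def base (H : Subgroup G) : Subgroup G := (Quotient.mk (conjSetoid G) H).out

theorem base_rel (H : Subgroup G) : ∃ g : G, ∀ s, s ∈ H ↔ g⁻¹ * s * g ∈ base H :=
  Quotient.mk_out (s := conjSetoid G) H

/-- A chosen conjugating element. -/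
noncomputable def tau (H : Subgroup G) : G := (base_rel H).choose

theorem tau_spec (H : Subgroup G) (s : G) : s ∈ H ↔ (tau H)⁻¹ * s * tau H ∈ base H :=
  (base_rel H).choose_spec s

theorem base_eq {H K : Subgroup G} (g : G) (h : ∀ s, s ∈ K ↔ g⁻¹ * s * g ∈ H) :
    base K = base H := by
  unfold base
  rw [Quotient.sound (s := conjSetoid G) (a := H) (b := K) ⟨g, h⟩]

end conj

section aff

variable {G : Type} [Group G] {W : Type} [AddCommGroup W] [DistribMulAction G W]

/-- Points fixed by a subgroup. -/
def Fx (H : Subgroup G) (w : W × Set G) : Prop := ∀ s ∈ H, s • w.1 = w.1 ∧ s • w.2 = w.2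

open Classical in
/-- The affine map on the fixed points of `H`, extended by the identity. -/
noncomputable def aff (H : Subgroup G) (h : G) (d : W) : Function.End (W × Set G) :=
  fun w => if Fx H w then (h • w.1 + d, h • w.2) else w

theorem fx_aff {H : Subgroup G} {h : G} {d : W} (hn : ∀ s ∈ H, h⁻¹ * s * h ∈ H)
    (hd : ∀ s ∈ H, s • d = d) {w : W × Set G} (hw : Fx H w) : Fx H (h • w.1 + d, h • w.2) := by
  intro s hs
  obtain ⟨h1, h2⟩ := hw _ (hn s hs)
  constructor
  · have : s • h • w.1 = h • w.1 := by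
      conv_rhs => rw [← h1]
      simp [← mul_smul, mul_assoc]
    simp [smul_add, this, hd s hs]
  · conv_rhs => rw [← h2]
    simp [← mul_smul, mul_assoc]

theorem aff_pos {H : Subgroup G} {h : G} {d : W} {w : W × Set G} (hw : Fx H w) :
    aff H h d w = (h • w.1 + d, h • w.2) := by
  simp only [aff, if_pos hw]

theorem aff_neg {H : Subgroup G} {h : G} {d : W} {w : W × Set G} (hw : ¬ Fx H w) :
    aff H h d w = w := by
  simp only [aff, if_neg hw]

theorem aff_mul {H : Subgroup G} {h k : G} {d e : W} (hn : ∀ s ∈ H, k⁻¹ * s * k ∈ H)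
    (he : ∀ s ∈ H, s • e = e) :
    aff H h d * aff H k e = aff H (h * k) (h • e + d) := by
  funext w
  change aff H h d (aff H k e w) = _
  by_cases hw : Fx H w
  · have h1 := fx_aff hn he hw
    rw [aff_pos hw, aff_pos h1, aff_pos hw]
    simp only [smul_add, mul_smul, add_assoc]
  · rw [aff_neg hw, aff_neg hw, aff_neg hw]

theorem aff_eq_one {H : Subgroup G} {h : G} (hh : h ∈ H) : aff H h (0 : W) = 1 := by
  funext w
  change aff H h 0 w = w
  by_cases hw : Fx H w
  · simp only [aff, if_pos hw, add_zero, (hw h hh).1, (hw h hh).2]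
  · simp only [aff, if_neg hw]

theorem of_aff_eq_one {H : Subgroup G} {h : G} {d : W} (h1 : aff H h d = 1) :
    h ∈ H ∧ d = 0 := by
  have hw : Fx H ((0 : W), (H : Set G)) := fun s hs => ⟨smul_zero s, smul_coe_set hs⟩
  have h2 : aff H h d (0, (H : Set G)) = (0, (H : Set G)) := by rw [h1]; rfl
  simp only [aff, if_pos hw, smul_zero, zero_add, Prod.mk.injEq] at h2
  refine ⟨?_, h2.1⟩
  have : h • (1 : G) ∈ h • (H : Set G) := smul_mem_smul_set H.one_mem
  rw [h2.2] at this
  simpa using this

end aff

theorem essFree_of_data {X : Type} [MeasurableSpace X] [StandardBorelSpace X]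
    {G : Type} [Group G] [Countable G] [MulAction G X]
    {W : Type} [AddCommGroup W] [DistribMulAction G W] {C : Type}
    (hG : ∀ g : G, Measurable fun x : X => g • x)
    (S : X → Subgroup G) (z : X → W) (r : X → C)
    (hconj : ∀ (g : G) (x : X) (s : G), s ∈ S (g • x) ↔ g⁻¹ * s * g ∈ S x)
    (hstab : ∀ (g : G) (x : X), g • x = x → g ∈ S x)
    (hfix : ∀ x, ∀ s ∈ S x, s • z x = z x)
    (hinj : ∀ x, ∀ s ∈ S x, z (s • x) = z x → r (s • x) = r x → s • x = x)
    (hS : PC S) (hr : PC r) (hz : ∀ g : G, PC fun x => z (g • x) - g • z x) :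
    EssentiallyFree (fun x y : X => ∃ g : G, g • x = y) := by
  classical
  let nx : X → X := fun x => (tau (S x))⁻¹ • x
  let ng : G → X → G := fun g x => (tau (S (g • x)))⁻¹ * g * tau (S x)
  let H : X → Subgroup G := fun x => base (S x)
  have hnx : ∀ g x, nx (g • x) = ng g x • nx x := by
    intro g x
    simp [nx, ng, mul_smul]
  have hSnx : ∀ x, S (nx x) = H x := by
    intro x
    ext s
    simp only [nx, H]
    rw [hconj, tau_spec]
    simp [mul_assoc]
  have hH : ∀ (g : G) x, H (g • x) = H x := fun g x => base_eq g (hconj g x)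
  have hnorm : ∀ g x, ∀ s ∈ H x, (ng g x)⁻¹ * s * ng g x ∈ H x := by
    intro g x s hs
    rw [← hSnx, ← hconj, ← hnx, hSnx, hH]
    exact hs
  have hngmul : ∀ g h x, ng (g * h) x = ng g (h • x) * ng h x := by
    intro g h x
    simp [ng, mul_smul, mul_assoc]
  let D : G → X → W := fun g x => z (nx (g • x)) - ng g x • z (nx x)
  have hD : ∀ g x, ∀ s ∈ H x, s • D g x = D g x := by
    intro g x s hs
    have h1 : s • z (nx (g • x)) = z (nx (g • x)) := hfix _ _ (by rw [hSnx, hH]; exact hs)
    have h2 := hfix (nx x) _ (by rw [hSnx]; exact hnorm g x s hs)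
    have h3 : s • ng g x • z (nx x) = ng g x • z (nx x) := by
      conv_rhs => rw [← h2]
      simp [← mul_smul, mul_assoc]
    simp only [D, smul_sub, h1, h3]
  let b : G → X → Function.End (W × Set G) := fun g x => aff (H x) (ng g x) (D g x)
  have hb : ∀ g h x, b (g * h) x = b g (h • x) * b h x := by
    intro g h x
    simp only [b]
    rw [hH, aff_mul (hnorm h x) (hD h x), hngmul]
    congr 1
    simp only [D, smul_sub, hngmul, mul_smul]
    abel
  have hbone : ∀ g x, g • x = x → b g x = 1 := by
    intro g x hgx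
    have h1 : ng g x • nx x = nx x := by rw [← hnx, hgx]
    have h2 : ng g x ∈ H x := by rw [← hSnx]; exact hstab _ _ h1
    have h3 : D g x = 0 := by
      simp only [D]
      rw [hgx, hfix (nx x) _ (by rw [hSnx]; exact h2), sub_self]
    simp only [b]
    rw [h3, aff_eq_one h2]
  let β0 : G → X → (Function.End (W × Set G))ˣ := fun g x =>
    ⟨b g x, b g⁻¹ (g • x), by
      have := hb g g⁻¹ (g • x)
      rw [inv_smul_smul] at this
      rw [← this]
      exact hbone _ _ (by simp), by
      rw [← hb]
      exact hbone _ _ (by simp)⟩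
  let ρ : X → (Subgroup G × C) →₀ ℤ := fun x => Finsupp.single (S x, r (nx x)) 1
  let β : G → X → (Function.End (W × Set G))ˣ × Multiplicative ((Subgroup G × C) →₀ ℤ) :=
    fun g x => (β0 g x, Multiplicative.ofAdd (ρ (g • x) - ρ x))
  refine essFree_of_cocycle hG β ?_ ?_ ?_
  · intro g h x
    refine Prod.ext (Units.ext (hb g h x)) ?_
    change Multiplicative.ofAdd (ρ ((g * h) • x) - ρ x) =
      Multiplicative.ofAdd (ρ (g • h • x) - ρ (h • x)) * Multiplicative.ofAdd (ρ (h • x) - ρ x)
    rw [← ofAdd_add, mul_smul]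
    congr 1
    abel
  · intro g x
    constructor
    · intro h1
      have h2 : b g x = 1 := congrArg (fun p => (p.1 : Function.End (W × Set G))) h1
      have h3 : ρ (g • x) - ρ x = 0 := congrArg (fun p => Multiplicative.toAdd p.2) h1
      obtain ⟨h4, h5⟩ := of_aff_eq_one h2
      have h6 : (S (g • x), r (nx (g • x))) = (S x, r (nx x)) := by
        have := sub_eq_zero.1 h3
        exact Finsupp.single_left_injective one_ne_zero this
      have h7 : S (g • x) = S x := congrArg Prod.fst h6
      have h8 : r (nx (g • x)) = r (nx x) := congrArg Prod.snd h6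
      rw [← hSnx] at h4
      have h9 : z (nx (g • x)) = z (nx x) := by
        have := sub_eq_zero.1 h5
        rw [this, hfix _ _ h4]
      rw [hnx] at h8 h9
      have h10 := hinj _ _ h4 h9 h8
      rw [← hnx] at h10
      simp only [nx, h7] at h10
      exact smul_left_cancel _ h10
    · intro h1
      refine Prod.ext (Units.ext (hbone g x h1)) ?_
      change Multiplicative.ofAdd (ρ (g • x) - ρ x) = 1
      rw [h1, sub_self]
      rfl
  · intro g
    have hSg : PC fun x => S (g • x) := hS.precomp (hG g)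
    have hrn : PC fun x => r (nx x) :=
      PC.glue (u := S) (h := fun K x => r ((tau K)⁻¹ • x)) hS fun K => hr.precomp (hG _)
    have hDp : PC (D g) := by
      have := PC.glue (u := fun x => (S x, S (g • x)))
        (h := fun K x => z (((tau K.2)⁻¹ * g * tau K.1) • (tau K.1)⁻¹ • x) -
          ((tau K.2)⁻¹ * g * tau K.1) • z ((tau K.1)⁻¹ • x)) (hS.prod hSg)
        fun K => (hz ((tau K.2)⁻¹ * g * tau K.1)).precomp (hG (tau K.1)⁻¹)
      refine this.of_determined fun x y hxy => ?_
      simp only [D, hnx]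
      exact hxy
    refine (((hS.prod hSg).prod (hrn.prod (hrn.precomp (hG g)))).prod hDp).of_determined ?_
    intro x y hxy
    simp only [Prod.mk.injEq] at hxy
    obtain ⟨⟨⟨h1, h2⟩, h3, h4⟩, h5⟩ := hxy
    refine Prod.ext (Units.ext ?_) ?_
    · change b g x = b g y
      simp only [b, H, ng, h1, h2, h5]
    · change Multiplicative.ofAdd (ρ (g • x) - ρ x) = Multiplicative.ofAdd (ρ (g • y) - ρ y)
      simp only [ρ, h1, h2, h3, h4]

end Pool.Agent.P.MP_98674e_lc
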