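import Mathlib

/-! Local theory of subgroups of `ℚ^n`: localisation at a prime and the canonical lattice. -/

set_option linter.unusedSectionVars false
set_option linter.style.haveILetI false

namespace Pool.Agent.P.MP_98674e_lc

open Set
open scoped Pointwise

/-- The rational vector space. -/
abbrev V (n : ℕ) : Type := Fin n → ℚ

/-- Its general linear group. -/
abbrev GG (n : ℕ) : Type := (Module.End ℚ (V n))ˣ

variable {n : ℕ}

/-- Localisation at `p`. -/
def loc (p : ℕ) (A : AddSubgroup (V n)) : AddSubgroup (V n) where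
  carrier := {v | ∃ d : ℕ, d.Coprime p ∧ d • v ∈ A}
  zero_mem' := ⟨1, by simp, by simp⟩
  add_mem' := by
    rintro v w ⟨d, hd, hv⟩ ⟨e, he, hw⟩
    refine ⟨d * e, Nat.Coprime.mul_left hd he, ?_⟩
    rw [smul_add]
    refine A.add_mem ?_ ?_
    · rw [mul_comm, mul_smul]; exact A.nsmul_mem hv e
    · rw [mul_smul]; exact A.nsmul_mem hw d
  neg_mem' := by
    rintro v ⟨d, hd, hv⟩
    exact ⟨d, hd, by rw [smul_neg]; exact A.neg_mem hv⟩

theorem mem_loc {p : ℕ} {A : AddSubgroup (V n)} {v : V n} :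
    v ∈ loc p A ↔ ∃ d : ℕ, d.Coprime p ∧ d • v ∈ A := Iff.rfl

theorem le_loc (p : ℕ) (A : AddSubgroup (V n)) : A ≤ loc p A :=
  fun v hv => ⟨1, by simp, by simpa using hv⟩

theorem mem_loc_of_smul {p d : ℕ} {A : AddSubgroup (V n)} {v : V n} (hd : d.Coprime p)
    (hv : d • v ∈ loc p A) : v ∈ loc p A := by
  obtain ⟨e, he, hv⟩ := hv
  exact ⟨e * d, Nat.Coprime.mul_left he hd, by rwa [mul_smul]⟩

theorem mem_of_forall_loc {A : AddSubgroup (V n)} {v : V n}
    (h : ∀ p : ℕ, p.Prime → v ∈ loc p A) : v ∈ A := by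
  have key : ∀ d : ℕ, d • v ∈ A ↔ addOrderOf (v : V n ⧸ A) ∣ d := by
    intro d
    rw [addOrderOf_dvd_iff_nsmul_eq_zero, ← QuotientAddGroup.mk_nsmul,
      QuotientAddGroup.eq_zero_iff]
  by_contra hv
  have h1 : addOrderOf (v : V n ⧸ A) ≠ 1 := by
    intro h1
    apply hv
    have := (key 1).2 (by rw [h1])
    simpa using this
  obtain ⟨p, hp, hpd⟩ := Nat.exists_prime_and_dvd h1
  obtain ⟨d, hd, hdv⟩ := h p hp
  have h2 : p ∣ d := hpd.trans ((key d).1 hdv)
  exact hp.one_lt.ne' (Nat.Coprime.eq_one_of_dvd hd.symm h2)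

theorem mem_smul_iff {g : GG n} {A : AddSubgroup (V n)} {v : V n} :
    v ∈ g • A ↔ g⁻¹ • v ∈ A := AddSubgroup.mem_pointwise_smul_iff_inv_smul_mem

theorem loc_smul (p : ℕ) (g : GG n) (A : AddSubgroup (V n)) : loc p (g • A) = g • loc p A := by
  ext v
  simp only [mem_smul_iff, mem_loc, smul_comm g⁻¹]

/-- The standard lattice `ℤ^n`. -/
def M (n : ℕ) : AddSubgroup (V n) where
  carrier := {v | ∀ i, ∃ z : ℤ, v i = z}
  zero_mem' := fun _ => ⟨0, by simp⟩
  add_mem' := by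
    intro v w hv hw i
    obtain ⟨a, ha⟩ := hv i
    obtain ⟨b, hb⟩ := hw i
    exact ⟨a + b, by simp [ha, hb]⟩
  neg_mem' := by
    intro v hv i
    obtain ⟨a, ha⟩ := hv i
    exact ⟨-a, by simp [ha]⟩

theorem mem_M {v : V n} : v ∈ M n ↔ ∀ i, ∃ z : ℤ, v i = z := Iff.rfl

theorem single_mem_M (i : Fin n) : (fun j => if i = j then (1 : ℚ) else 0) ∈ M n := by
  intro j
  by_cases h : i = j
  · exact ⟨1, by simp [h]⟩
  · exact ⟨0, by simp [h]⟩

theorem exists_den (v : V n) : ∃ D : ℕ, 0 < D ∧ D • v ∈ M n := by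
  refine ⟨∏ i, (v i).den, Finset.prod_pos fun i _ => (v i).den_pos, fun i => ?_⟩
  obtain ⟨c, hc⟩ := Finset.dvd_prod_of_mem (fun i => (v i).den) (Finset.mem_univ i)
  refine ⟨c * (v i).num, ?_⟩
  rw [hc]
  simp only [Pi.smul_apply, nsmul_eq_mul, Nat.cast_mul, Int.cast_mul, Int.cast_natCast]
  rw [← Rat.mul_den_eq_num]
  ring

theorem exists_mul_den (P : ℕ → Prop) (h1 : P 1) (hmul : ∀ a b, P a → P b → P (a * b))
    (φ : Module.End ℚ (V n))
    (h : ∀ i, ∃ d, P d ∧ d • φ (fun j => if i = j then (1 : ℚ) else 0) ∈ M n) :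
    ∃ d, P d ∧ ∀ v ∈ M n, d • φ v ∈ M n := by
  choose d hd using h
  refine ⟨∏ i, d i, Finset.prod_induction d P hmul h1 fun i _ => (hd i).1, fun v hv => ?_⟩
  rw [LinearMap.pi_apply_eq_sum_univ φ v, Finset.smul_sum]
  refine (M n).sum_mem fun i _ => ?_
  obtain ⟨c, hc⟩ := Finset.dvd_prod_of_mem d (Finset.mem_univ i)
  obtain ⟨z, hz⟩ := hv i
  rw [hc, hz, smul_comm, Int.cast_smul_eq_zsmul, mul_comm, mul_smul]
  exact (M n).zsmul_mem ((M n).nsmul_mem (hd i).2 c) z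

theorem exists_end_den (φ : Module.End ℚ (V n)) : ∃ d, 0 < d ∧ ∀ v ∈ M n, d • φ v ∈ M n :=
  exists_mul_den (0 < ·) one_pos (fun _ _ => mul_pos) φ fun _ => exists_den _

/-- The localised standard lattice. -/
def Mp (n p : ℕ) : AddSubgroup (V n) := loc p (M n)

theorem map_loc {p m : ℕ} {A B : AddSubgroup (V n)} (φ : Module.End ℚ (V n))
    (hm : m.Coprime p) (h : ∀ a ∈ A, m • φ a ∈ B) {v : V n} (hv : v ∈ loc p A) :
    φ v ∈ loc p B := by
  obtain ⟨d, hd, hv⟩ := hv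
  refine ⟨m * d, Nat.Coprime.mul_left hm hd, ?_⟩
  rw [mul_smul, ← map_nsmul]
  exact h _ hv

theorem smul_eq_of_maps {g : GG n} {B : AddSubgroup (V n)} (h1 : ∀ v ∈ B, g • v ∈ B)
    (h2 : ∀ v ∈ B, g⁻¹ • v ∈ B) : g • B = B := by
  ext v
  rw [mem_smul_iff]
  exact ⟨fun h => by simpa using h1 _ h, h2 v⟩

theorem coprime_of_lt {p m : ℕ} (hp : p.Prime) (hm : 0 < m) (hlt : m < p) : m.Coprime p :=
  ((Nat.Prime.coprime_iff_not_dvd hp).2 fun h => absurd (Nat.le_of_dvd hm h) (not_le.2 hlt)).symm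

theorem exists_bound_Mp (g : GG n) : ∃ N : ℕ, ∀ p : ℕ, p.Prime → N ≤ p → g • Mp n p = Mp n p := by
  obtain ⟨d, hd, h⟩ := exists_end_den (g : Module.End ℚ (V n))
  obtain ⟨e, he, h'⟩ := exists_end_den ((g⁻¹ : GG n) : Module.End ℚ (V n))
  refine ⟨d + e + 1, fun p hp hN => smul_eq_of_maps (fun v hv => ?_) (fun v hv => ?_)⟩
  · exact map_loc _ (coprime_of_lt hp hd (by omega)) h hv
  · exact map_loc _ (coprime_of_lt hp he (by omega)) h' hv

theorem exists_pow_mem_Mp {p : ℕ} (hp : p.Prime) (v : V n) : ∃ e : ℕ, p ^ e • v ∈ Mp n p := by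
  obtain ⟨D, hD, hv⟩ := exists_den v
  obtain ⟨e, d, hd, rfl⟩ := Nat.exists_eq_pow_mul_and_not_dvd hD.ne' p hp.ne_one
  refine ⟨e, d, ((Nat.Prime.coprime_iff_not_dvd hp).2 hd).symm, ?_⟩
  rwa [← mul_smul, mul_comm]

theorem exists_digit {p : ℕ} (hp : p.Prime) {x : V n} (hx : p • x ∈ Mp n p) :
    ∃ c : Fin n → Fin p, x - (fun i => ((c i : ℕ) : ℚ) / p) ∈ Mp n p := by
  obtain ⟨d, hd, hx⟩ := hx
  choose u hu using hx
  haveI : Fact p.Prime := ⟨hp⟩
  have hd0 : (d : ZMod p) ≠ 0 := by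
    rw [Ne, ZMod.natCast_eq_zero_iff]
    exact (Nat.Prime.coprime_iff_not_dvd hp).1 hd.symm
  refine ⟨fun i => ⟨((u i : ZMod p) / d).val, ZMod.val_lt _⟩, d, hd, fun i => ?_⟩
  have h1 : (p : ℤ) ∣ u i - d * (((u i : ZMod p) / d).val : ℕ) := by
    rw [← ZMod.intCast_zmod_eq_zero_iff_dvd]
    push_cast
    rw [ZMod.natCast_zmod_val]
    field_simp
    ring
  obtain ⟨w, hw⟩ := h1
  refine ⟨w, ?_⟩
  have hp0 : (p : ℚ) ≠ 0 := by exact_mod_cast hp.ne_zero
  have h2 := hu i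
  rw [Pi.smul_apply, Pi.smul_apply, nsmul_eq_mul, nsmul_eq_mul] at h2
  rw [Pi.smul_apply, Pi.sub_apply, nsmul_eq_mul]
  have h3 : (u i : ℚ) - d * (((u i : ZMod p) / d).val : ℕ) = p * w := by exact_mod_cast hw
  field_simp
  linear_combination h3 + h2

/-- `k` is a stabilisation exponent for `B` at `p`. -/
def K (p : ℕ) (B : AddSubgroup (V n)) (k : ℕ) : Prop :=
  ∀ j : ℕ, ∀ a ∈ B, ∃ b ∈ B, p ^ k • a - p ^ (j + k) • b ∈ Mp n p

theorem exists_K {p : ℕ} (hp : p.Prime) (B : AddSubgroup (V n)) : ∃ k, K p B k := by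
  classical
  let N : ℕ → V n → Prop := fun j x => ∃ b ∈ B, x - p ^ j • b ∈ Mp n p
  have hNmono : ∀ i j x, i ≤ j → N j x → N i x := by
    rintro i j x hij ⟨b, hb, hx⟩
    obtain ⟨t, rfl⟩ := Nat.exists_eq_add_of_le hij
    exact ⟨p ^ t • b, B.nsmul_mem hb _, by rwa [← mul_smul, ← pow_add]⟩
  have hNadd : ∀ j x y, N j x → N j y → N j (x + y) := by
    rintro j x y ⟨b, hb, hx⟩ ⟨c, hc, hy⟩
    refine ⟨b + c, B.add_mem hb hc, ?_⟩
    convert (Mp n p).add_mem hx hy using 1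
    rw [smul_add]; abel
  have hNM : ∀ j x, x ∈ Mp n p → N j x := fun j x hx => ⟨0, B.zero_mem, by simpa using hx⟩
  have hNB : ∀ i j b, i ≤ j → b ∈ B → N i (p ^ j • b) := fun i j b hij hb =>
    hNmono i j _ hij ⟨b, hb, by simp⟩
  have hstab : ∀ c : Fin n → Fin p, ∃ jc : ℕ, N jc (fun i => ((c i : ℕ) : ℚ) / p) →
      ∀ j, N j (fun i => ((c i : ℕ) : ℚ) / p) := by
    intro c
    by_cases h : ∀ j, N j (fun i => ((c i : ℕ) : ℚ) / p)
    · exact ⟨0, fun _ => h⟩
    · obtain ⟨j, hj⟩ := not_forall.1 h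
      exact ⟨j, fun h' => absurd h' hj⟩
  choose jc hjc using hstab
  let k := Finset.univ.sup jc
  have h1 : ∀ x, p • x ∈ Mp n p → N k x → ∀ j, N j x := by
    intro x hx hk j
    obtain ⟨c, hc⟩ := exists_digit hp hx
    have h2 : N k (fun i => ((c i : ℕ) : ℚ) / p) := by
      have := hNadd k _ _ hk (hNM k _ ((Mp n p).neg_mem hc))
      simpa using this
    have h3 := hjc c (hNmono _ _ _ (Finset.le_sup (f := jc) (Finset.mem_univ c)) h2) j
    have := hNadd j _ _ h3 (hNM j _ hc)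
    simpa using this
  have h2 : ∀ e : ℕ, ∀ x, p ^ e • x ∈ Mp n p → N k x → ∀ j, N j x := by
    intro e
    induction e with
    | zero => intro x hx _ j; exact hNM j x (by simpa using hx)
    | succ e ih =>
      intro x hx hk j
      have h3 : N k (p ^ e • x) := by
        obtain ⟨b, hb, hxb⟩ := hk
        refine ⟨p ^ e • b, B.nsmul_mem hb _, ?_⟩
        rw [smul_comm, ← smul_sub]
        exact (Mp n p).nsmul_mem hxb _
      obtain ⟨b, hb, hxb⟩ := h1 (p ^ e • x) (by rwa [← mul_smul, ← pow_succ']) h3 (e + (j + k))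
      have h4 : p ^ e • (x - p ^ (j + k) • b) ∈ Mp n p := by
        rwa [smul_sub, ← mul_smul, ← pow_add]
      have h5 : N k (x - p ^ (j + k) • b) := by
        have := hNadd k _ _ hk (hNB k (j + k) (-b) (by omega) (B.neg_mem hb))
        simpa [sub_eq_add_neg] using this
      have := hNadd j _ _ (ih _ h4 h5 j) (hNB j (j + k) b (by omega) hb)
      simpa using this
  refine ⟨k, fun j a ha => ?_⟩
  obtain ⟨e, he⟩ := exists_pow_mem_Mp hp (p ^ k • a)
  exact h2 e _ he (hNB k k a le_rfl ha) (j + k)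

/-- The least stabilisation exponent. -/
noncomputable def kk (p : ℕ) (B : AddSubgroup (V n)) : ℕ := sInf {k | K p B k}

theorem K_kk {p : ℕ} (hp : p.Prime) (B : AddSubgroup (V n)) : K p B (kk p B) :=
  Nat.sInf_mem (exists_K hp B)

/-- The canonical lattice attached to a `p`-local group. -/
def Th0 (p : ℕ) (B : AddSubgroup (V n)) : Set (V n) := {v | v ∈ B ∧ p ^ kk p B • v ∈ Mp n p}

theorem K_smul {p : ℕ} {g : GG n} (hg : g • Mp n p = Mp n p) {B : AddSubgroup (V n)} {k : ℕ}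
    (h : K p B k) : K p (g • B) k := by
  intro j a ha
  obtain ⟨b, hb, hab⟩ := h j _ (mem_smul_iff.1 ha)
  refine ⟨g • b, mem_smul_iff.2 (by simpa using hb), ?_⟩
  rw [← hg, mem_smul_iff, smul_sub, smul_comm g⁻¹, smul_comm g⁻¹, inv_smul_smul]
  exact hab

theorem kk_smul {p : ℕ} {g : GG n} (hg : g • Mp n p = Mp n p) (B : AddSubgroup (V n)) :
    kk p (g • B) = kk p B := by
  have hg' : g⁻¹ • Mp n p = Mp n p := by
    conv_lhs => rw [← hg]
    rw [inv_smul_smul]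
  unfold kk
  congr 1
  ext k
  exact ⟨fun h => by simpa using K_smul hg' h, K_smul hg⟩

theorem Th0_smul {p : ℕ} {g : GG n} (hg : g • Mp n p = Mp n p) (B : AddSubgroup (V n)) :
    Th0 p (g • B) = g • Th0 p B := by
  ext v
  rw [Set.mem_smul_set_iff_inv_smul_mem]
  simp only [Th0, mem_ofPred_eq, kk_smul hg, mem_smul_iff]
  refine and_congr Iff.rfl ?_
  conv_lhs => rw [← hg, mem_smul_iff, smul_comm]

theorem loc_le_of_Th0 {p m : ℕ} (hp : p.Prime) {A B : AddSubgroup (V n)} (hm : 0 < m)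
    (hAB : ∀ a ∈ A, m • a ∈ B) (hT : Th0 p (loc p A) ⊆ Th0 p (loc p B)) :
    loc p A ≤ loc p B := by
  obtain ⟨j, d, hd, rfl⟩ := Nat.exists_eq_pow_mul_and_not_dvd hm.ne' p hp.ne_one
  have hd' : d.Coprime p := ((Nat.Prime.coprime_iff_not_dvd hp).2 hd).symm
  intro a ha
  obtain ⟨b, hb, hab⟩ := K_kk hp (loc p A) j a ha
  have h1 : a - p ^ j • b ∈ Th0 p (loc p A) := by
    refine ⟨(loc p A).sub_mem ha ((loc p A).nsmul_mem hb _), ?_⟩
    rwa [smul_sub, ← mul_smul, ← pow_add, add_comm]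
  have h2 : p ^ j • b ∈ loc p B := by
    obtain ⟨e, he, hb⟩ := hb
    refine ⟨e * d, Nat.Coprime.mul_left he hd', ?_⟩
    have := hAB _ hb
    rwa [← mul_smul, show p ^ j * d * e = e * d * p ^ j by ring, mul_smul] at this
  have := (loc p B).add_mem (hT h1).1 h2
  simpa using this

theorem M_fg : (AddSubgroup.toIntSubmodule (M n)).FG := by
  let c : (Fin n → ℤ) →ₗ[ℤ] V n := (Int.castAddHom ℚ).toIntLinearMap.compLeft (Fin n)
  have : AddSubgroup.toIntSubmodule (M n) ≤ Submodule.map c ⊤ := by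
    intro v hv
    choose z hz using (show v ∈ M n from hv)
    exact ⟨z, trivial, funext fun i => (hz i).symm⟩
  exact Submodule.FG.of_le (Submodule.FG.map c Module.Finite.fg_top) this

theorem fg_of_smul_le {B : AddSubgroup (V n)} {D : ℕ} (hD : 0 < D) (h : ∀ v ∈ B, D • v ∈ M n) :
    ∃ T : Finset (V n), AddSubgroup.closure (T : Set (V n)) = B := by
  let f : V n →ₗ[ℤ] V n := D • LinearMap.id
  have hf : Function.Injective f := by
    intro v w hvw
    have hD' : (D : ℚ) ≠ 0 := by exact_mod_cast hD.ne'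
    have : (D : ℚ) • v = (D : ℚ) • w := by
      simpa [f, Nat.cast_smul_eq_nsmul] using hvw
    exact smul_right_injective _ hD' this
  have h1 : (AddSubgroup.toIntSubmodule B).FG := by
    refine Submodule.fg_of_fg_map_injective f hf (Submodule.FG.of_le M_fg ?_)
    rintro _ ⟨v, hv, rfl⟩
    exact h v hv
  rw [Submodule.fg_iff_addSubgroup_fg, AddSubgroup.toIntSubmodule_toAddSubgroup] at h1
  exact h1

theorem countable_range_Th {p : ℕ} (hp : p.Prime) :
    (range fun A : AddSubgroup (V n) => Th0 p (loc p A)).Countable := by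
  refine (countable_range fun T : Finset (V n) =>
    (loc p (AddSubgroup.closure (T : Set (V n))) : Set (V n))).mono ?_
  rintro _ ⟨A, rfl⟩
  let k := kk p (loc p A)
  let B : AddSubgroup (V n) := A ⊓ (M n).comap (nsmulAddMonoidHom (p ^ k))
  obtain ⟨T, hT⟩ := fg_of_smul_le (B := B) (pow_pos hp.pos k) fun v hv => hv.2
  refine ⟨T, ?_⟩
  beta_reduce
  rw [hT]
  ext v
  constructor
  · rintro ⟨d, hd, h1, h2⟩
    refine ⟨⟨d, hd, h1⟩, d, hd, ?_⟩
    rw [smul_comm]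
    exact h2
  · rintro ⟨⟨d, hd, h1⟩, e, he, h2⟩
    refine ⟨d * e, Nat.Coprime.mul_left hd he, ?_, ?_⟩
    · change (d * e) • v ∈ A
      rw [mul_comm, mul_smul]
      exact A.nsmul_mem h1 e
    · change p ^ k • (d * e) • v ∈ M n
      rw [smul_comm, mul_smul]
      exact (M n).nsmul_mem h2 d

/-- Quasi-endomorphisms of `A`. -/
def R (A : AddSubgroup (V n)) : Submodule ℚ (Module.End ℚ (V n)) where
  carrier := {φ | ∃ m : ℕ, 0 < m ∧ ∀ a ∈ A, m • φ a ∈ A}
  zero_mem' := ⟨1, one_pos, fun a _ => by simp⟩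
  add_mem' := by
    rintro φ ψ ⟨m, hm, h⟩ ⟨m', hm', h'⟩
    refine ⟨m * m', mul_pos hm hm', fun a ha => ?_⟩
    rw [LinearMap.add_apply, smul_add]
    refine A.add_mem ?_ ?_
    · rw [mul_comm, mul_smul]; exact A.nsmul_mem (h a ha) _
    · rw [mul_smul]; exact A.nsmul_mem (h' a ha) _
  smul_mem' := by
    rintro q φ ⟨m, hm, h⟩
    refine ⟨m * q.den, mul_pos hm q.den_pos, fun a ha => ?_⟩
    have : (m * q.den) • (q • φ) a = q.num • m • φ a := by
      rw [LinearMap.smul_apply, ← Nat.cast_smul_eq_nsmul ℚ, ← Nat.cast_smul_eq_nsmul ℚ,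
        ← Int.cast_smul_eq_zsmul ℚ, smul_smul, smul_smul, ← Rat.mul_den_eq_num]
      congr 1
      push_cast
      ring
    rw [this]
    exact A.zsmul_mem (h a ha) _

theorem mem_R {A : AddSubgroup (V n)} {φ : Module.End ℚ (V n)} :
    φ ∈ R A ↔ ∃ m : ℕ, 0 < m ∧ ∀ a ∈ A, m • φ a ∈ A := Iff.rfl

theorem R_mul {A : AddSubgroup (V n)} {φ ψ : Module.End ℚ (V n)} (h : φ ∈ R A) (h' : ψ ∈ R A) :
    φ * ψ ∈ R A := by
  obtain ⟨m, hm, h⟩ := h
  obtain ⟨m', hm', h'⟩ := h'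
  refine ⟨m * m', mul_pos hm hm', fun a ha => ?_⟩
  rw [Module.End.mul_apply, mul_smul, ← map_nsmul]
  exact h _ (h' a ha)

/-- The stabiliser of the quasi-equality class of `A`. -/
def St (A : AddSubgroup (V n)) : Subgroup (GG n) where
  carrier := {g | (g : Module.End ℚ (V n)) ∈ R A ∧ ((g⁻¹ : GG n) : Module.End ℚ (V n)) ∈ R A}
  one_mem' := ⟨⟨1, one_pos, fun a ha => by simpa using ha⟩,
    ⟨1, one_pos, fun a ha => by simpa using ha⟩⟩
  mul_mem' := by
    rintro g h ⟨h1, h2⟩ ⟨h3, h4⟩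
    refine ⟨R_mul h1 h3, ?_⟩
    rw [mul_inv_rev]
    exact R_mul h4 h2
  inv_mem' := by
    rintro g ⟨h1, h2⟩
    exact ⟨h2, by rwa [inv_inv]⟩

theorem mem_St {A : AddSubgroup (V n)} {g : GG n} :
    g ∈ St A ↔ (g : Module.End ℚ (V n)) ∈ R A ∧ ((g⁻¹ : GG n) : Module.End ℚ (V n)) ∈ R A :=
  Iff.rfl

theorem mem_R_smul (g s : GG n) (A : AddSubgroup (V n)) :
    (s : Module.End ℚ (V n)) ∈ R (g • A) ↔
      ((g⁻¹ * s * g : GG n) : Module.End ℚ (V n)) ∈ R A := by
  refine exists_congr fun m => and_congr Iff.rfl ⟨fun h a ha => ?_, fun h a ha => ?_⟩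
  · have := mem_smul_iff.1 (h (g • a) (mem_smul_iff.2 (by simpa using ha)))
    rw [smul_comm] at this
    exact this
  · have := h _ (mem_smul_iff.1 ha)
    rw [mem_smul_iff, smul_comm]
    change m • (g⁻¹ * s * g) • g⁻¹ • a ∈ A at this
    rw [← mul_smul, mul_inv_cancel_right, mul_smul] at this
    exact this

theorem mem_St_smul (g s : GG n) (A : AddSubgroup (V n)) :
    s ∈ St (g • A) ↔ g⁻¹ * s * g ∈ St A := by
  rw [mem_St, mem_St, mem_R_smul, mem_R_smul]
  simp [mul_assoc]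

theorem mem_St_of_smul_eq {g : GG n} {A : AddSubgroup (V n)} (h : g • A = A) : g ∈ St A := by
  refine ⟨⟨1, one_pos, fun a ha => ?_⟩, ⟨1, one_pos, fun a ha => ?_⟩⟩
  · rw [one_smul, ← h, mem_smul_iff]
    change g⁻¹ • g • a ∈ A
    simpa using ha
  · rw [one_smul]
    rw [← h, mem_smul_iff] at ha
    exact ha

/-- The prime `p` is good for `A`. -/
def Good (p : ℕ) (A : AddSubgroup (V n)) : Prop :=
  ∀ s ∈ St A, s • Mp n p = Mp n p → s • loc p A = loc p A

theorem exists_uniform_den (A : AddSubgroup (V n)) : ∃ m : ℕ, 0 < m ∧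
    ∀ φ ∈ R A, (∀ v ∈ M n, φ v ∈ M n) → ∀ a ∈ A, m • φ a ∈ A := by
  classical
  let O : Submodule ℤ (Module.End ℚ (V n)) :=
    { carrier := {φ | φ ∈ R A ∧ ∀ v ∈ M n, φ v ∈ M n}
      zero_mem' := ⟨(R A).zero_mem, fun v _ => (M n).zero_mem⟩
      add_mem' := fun h h' => ⟨(R A).add_mem h.1 h'.1, fun v hv =>
        (M n).add_mem (h.2 v hv) (h'.2 v hv)⟩
      smul_mem' := fun c φ h => ⟨zsmul_mem h.1 c, fun v hv => (M n).zsmul_mem (h.2 v hv) c⟩ }
  let ev : Module.End ℚ (V n) →ₗ[ℤ] (Fin n → V n) :=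
    { toFun := fun φ i => φ (fun j => if i = j then (1 : ℚ) else 0)
      map_add' := fun _ _ => rfl
      map_smul' := fun _ _ => rfl }
  have hev : Function.Injective ev := by
    intro φ ψ h
    refine LinearMap.ext fun v => ?_
    rw [LinearMap.pi_apply_eq_sum_univ φ v, LinearMap.pi_apply_eq_sum_univ ψ v]
    exact Finset.sum_congr rfl fun i _ => congrArg _ (congrFun h i)
  have hfg : O.FG := by
    refine Submodule.fg_of_fg_map_injective ev hev (Submodule.FG.of_le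
      (Submodule.fg_pi (p := fun _ : Fin n => AddSubgroup.toIntSubmodule (M n))
        fun _ => M_fg) ?_)
    rintro _ ⟨φ, hφ, rfl⟩ i _
    exact hφ.2 _ (single_mem_M i)
  obtain ⟨T, hT⟩ := hfg
  have hTO : ∀ t ∈ T, t ∈ R A := fun t ht =>
    (show t ∈ O from hT ▸ Submodule.subset_span ht).1
  choose! m hm using hTO
  refine ⟨∏ t ∈ T, m t, Finset.prod_pos fun t ht => (hm t ht).1, fun φ h1 h2 a ha => ?_⟩
  have hφ : φ ∈ Submodule.span ℤ (T : Set (Module.End ℚ (V n))) := by rw [hT]; exact ⟨h1, h2⟩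
  clear h1 h2
  induction hφ using Submodule.span_induction with
  | mem t ht =>
    obtain ⟨c, hc⟩ := Finset.dvd_prod_of_mem m ht
    rw [hc, mul_comm, mul_smul]
    exact A.nsmul_mem ((hm t ht).2 a ha) c
  | zero => simp
  | add φ ψ _ _ h1 h2 =>
    rw [LinearMap.add_apply, smul_add]
    exact A.add_mem h1 h2
  | smul c φ _ h1 =>
    rw [LinearMap.smul_apply, smul_comm]
    exact A.zsmul_mem h1 c

theorem exists_bound_Good (A : AddSubgroup (V n)) :
    ∃ N : ℕ, ∀ p : ℕ, p.Prime → N ≤ p → Good p A := by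
  obtain ⟨m, hm, h⟩ := exists_uniform_den A
  refine ⟨m + 1, fun p hp hN => ?_⟩
  have key : ∀ s : GG n, (s : Module.End ℚ (V n)) ∈ R A → (∀ v ∈ Mp n p, s • v ∈ Mp n p) →
      ∀ v ∈ loc p A, s • v ∈ loc p A := by
    intro s hs hM v hv
    obtain ⟨d, hd, hdM⟩ := exists_mul_den (fun d => d.Coprime p) (by simp)
      (fun _ _ => Nat.Coprime.mul_left) (s : Module.End ℚ (V n))
      fun i => hM _ (le_loc p _ (single_mem_M i))
    have h1 := h (d • (s : Module.End ℚ (V n))) (nsmul_mem hs d) hdM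
    refine mem_loc_of_smul hd ?_
    exact map_loc (d • (s : Module.End ℚ (V n))) (coprime_of_lt hp hm (by omega)) h1 hv
  intro s hs hsM
  refine smul_eq_of_maps (key s hs.1 fun v hv => ?_) (key s⁻¹ hs.2 fun v hv => ?_)
  · rw [← hsM, mem_smul_iff]
    simpa using hv
  · rw [← hsM, mem_smul_iff] at hv
    exact hv

instance : Countable (Module.End ℚ (V n)) :=
  haveI : Countable (Matrix (Fin n) (Fin n) ℚ) :=
    inferInstanceAs (Countable (Fin n → Fin n → ℚ))
  (LinearMap.toMatrix' (R := ℚ) (m := Fin n) (n := Fin n)).injective.countable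

instance : Countable (GG n) := Units.val_injective.countable

instance : Countable (Submodule ℚ (Module.End ℚ (V n))) := by
  have : Function.Surjective fun T : Finset (Module.End ℚ (V n)) =>
      Submodule.span ℚ (T : Set (Module.End ℚ (V n))) := fun N =>
    IsNoetherian.noetherian N
  exact this.countable

end Pool.Agent.P.MP_98674e_lc
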