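import Mathlib
import Pool.Agent.P.MP_98674e_lc.Abstract
import Pool.Agent.P.MP_98674e_lc.Local

/-! The isomorphism relation on rank `n` subgroups of `ℚ^n` is essentially free. -/

set_option linter.unusedSectionVars false
set_option linter.style.haveILetI false

namespace Pool.Agent.P.MP_98674e_lc

open Set
open scoped Pointwise

variable {n : ℕ}

theorem span_smul_top (g : GG n) {A : AddSubgroup (V n)}
    (h : Submodule.span ℚ (A : Set (V n)) = ⊤) :
    Submodule.span ℚ ((g • A : AddSubgroup (V n)) : Set (V n)) = ⊤ := by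
  rw [eq_top_iff]
  intro v _
  have h1 : g⁻¹ • v ∈ Submodule.span ℚ (A : Set (V n)) := by rw [h]; trivial
  have h2 := Submodule.mem_map_of_mem (f := (g : Module.End ℚ (V n))) h1
  rw [Submodule.map_span] at h2
  change g • g⁻¹ • v ∈ _ at h2
  rw [smul_inv_smul] at h2
  exact h2

instance instMulActionS : MulAction (GG n) (S n) where
  smul g A := ⟨g • A.1, span_smul_top g A.2⟩
  one_smul A := Subtype.ext (one_smul _ A.1)
  mul_smul g h A := Subtype.ext (mul_smul g h A.1)

theorem smul_val (g : GG n) (A : S n) : (g • A).1 = g • A.1 := rfl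

theorem meas_mem (v : V n) : Measurable fun A : S n => v ∈ A.1 :=
  (measurable_set_mem v).comp (measurable_iff_comap_le.2 le_rfl :
    Measurable fun A : S n => (A.1 : Set (V n)))

theorem meas_smul (g : GG n) : Measurable fun A : S n => g • A := by
  refine measurable_comap_iff.2 (measurable_set_iff.2 fun v => ?_)
  have : (fun A : S n => v ∈ ((g • A).1 : Set (V n))) = fun A : S n => g⁻¹ • v ∈ A.1 := by
    funext A
    exact propext mem_smul_iff
  exact this ▸ meas_mem _

theorem standardBorel_of_equiv {α β : Type} [MeasurableSpace α] [MeasurableSpace β]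
    [StandardBorelSpace β] (e : α ≃ᵐ β) : StandardBorelSpace α := by
  letI := upgradeStandardBorel β
  letI : TopologicalSpace α := TopologicalSpace.induced e inferInstance
  refine ⟨⟨inferInstance, ⟨?_⟩, e.toEquiv.polishSpace_induced⟩⟩
  have h1 := borel_comap (f := e) (t := (upgradeStandardBorel β).toTopologicalSpace)
  rw [← eq_borel_upgradeStandardBorel β] at h1
  exact e.measurableEmbedding.comap_eq.symm.trans h1.symm

instance instStandardBorelS : StandardBorelSpace (S n) := by
  haveI : StandardBorelSpace (Set (V n)) := inferInstanceAs (StandardBorelSpace (V n → Prop))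
  let f : S n → Set (V n) := fun A => (A.1 : Set (V n))
  have hf : Function.Injective f := fun A B h => Subtype.ext (SetLike.coe_injective h)
  have hrange : range f = {s : Set (V n) | (0 ∈ s ∧ (∀ v w, v ∈ s → w ∈ s → v + w ∈ s) ∧
      ∀ v, v ∈ s → -v ∈ s) ∧ ∃ T : Finset (V n), (∀ v ∈ T, v ∈ s) ∧
        Submodule.span ℚ (T : Set (V n)) = ⊤} := by
    ext s
    constructor
    · rintro ⟨A, rfl⟩
      refine ⟨⟨A.1.zero_mem, fun v w => A.1.add_mem, fun v => A.1.neg_mem⟩, ?_⟩
      obtain ⟨T, hT, hT'⟩ := (Submodule.fg_span_iff_fg_span_finset_subset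
        (R := ℚ) (A.1 : Set (V n))).1 (IsNoetherian.noetherian _)
      exact ⟨T, fun v hv => hT hv, by rw [← hT', A.2]⟩
    · rintro ⟨⟨h0, hadd, hneg⟩, T, hT, hT'⟩
      let B : AddSubgroup (V n) :=
        { carrier := s
          zero_mem' := h0
          add_mem' := fun h h' => hadd _ _ h h'
          neg_mem' := fun h => hneg _ h }
      refine ⟨⟨B, ?_⟩, rfl⟩
      rw [eq_top_iff, ← hT']
      exact Submodule.span_mono fun v hv => hT v hv
  have hmeas : MeasurableSet (range f) := by
    rw [hrange]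
    refine measurableSet_setOfPred.2 ?_
    refine Measurable.and (Measurable.and (measurable_set_mem _) (Measurable.and ?_ ?_)) ?_
    · exact Measurable.forall fun v => Measurable.forall fun w =>
        (measurable_set_mem _).imp ((measurable_set_mem _).imp (measurable_set_mem _))
    · exact Measurable.forall fun v => (measurable_set_mem _).imp (measurable_set_mem _)
    · exact Measurable.exists fun T => Measurable.and
        (Measurable.forall fun v => measurable_const.imp (measurable_set_mem _)) measurable_const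
  have hemb : MeasurableEmbedding f := MeasurableEmbedding.iff_comap_eq.2 ⟨hf, rfl, hmeas⟩
  haveI : StandardBorelSpace (range f) := hmeas.standardBorel
  exact standardBorel_of_equiv hemb.equivRange

theorem exists_ext {A : AddSubgroup (V n)} (e : A →+ V n) :
    ∃ φ : Module.End ℚ (V n), ∀ a : A, φ a = e a := by
  obtain ⟨h, hh⟩ := (Module.Baer.of_divisible (V n)).extension_property_addMonoidHom
    A.subtype Subtype.val_injective e
  exact ⟨h.toRatLinearMap, fun a => DFunLike.congr_fun hh a⟩

theorem iso_iff (A B : S n) : Iso n A B ↔ ∃ g : GG n, g • A = B := by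
  constructor
  · rintro ⟨e⟩
    obtain ⟨φ, hφ⟩ := exists_ext (B.1.subtype.comp e.toAddMonoidHom)
    obtain ⟨ψ, hψ⟩ := exists_ext (A.1.subtype.comp e.symm.toAddMonoidHom)
    have h1 : ∀ a : A.1, φ a = e a := hφ
    have h2 : ∀ b : B.1, ψ b = e.symm b := hψ
    have h3 : φ * ψ = 1 := by
      refine LinearMap.ext_on B.2 fun b hb => ?_
      rw [Module.End.mul_apply, h2 ⟨b, hb⟩, h1]
      simp
    have h4 : ψ * φ = 1 := by
      refine LinearMap.ext_on A.2 fun a ha => ?_
      rw [Module.End.mul_apply, h1 ⟨a, ha⟩, h2]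
      simp
    refine ⟨⟨φ, ψ, h3, h4⟩, Subtype.ext ?_⟩
    ext v
    rw [smul_val, mem_smul_iff]
    change ψ v ∈ A.1 ↔ v ∈ B.1
    constructor
    · intro h
      have : φ (ψ v) = v := by rw [← Module.End.mul_apply, h3]; rfl
      rw [← this, h1 ⟨_, h⟩]
      exact (e _).2
    · intro h
      rw [h2 ⟨v, h⟩]
      exact (e.symm _).2
  · rintro ⟨g, rfl⟩
    exact ⟨{ toFun := fun a => ⟨g • a.1, mem_smul_iff.2 (by simp)⟩
             invFun := fun b => ⟨g⁻¹ • b.1, mem_smul_iff.1 b.2⟩
             left_inv := fun a => Subtype.ext (inv_smul_smul g a.1)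
             right_inv := fun b => Subtype.ext (smul_inv_smul g b.1)
             map_add' := fun a b => Subtype.ext (smul_add g a.1 b.1) }⟩

theorem meas_loc (p : ℕ) (v : V n) : Measurable fun A : S n => v ∈ loc p A.1 :=
  Measurable.exists fun _ => measurable_const.and (meas_mem _)

theorem meas_sInf {X : Type} [MeasurableSpace X] {P : X → ℕ → Prop}
    (hP : ∀ k, Measurable fun x => P x k) (hex : ∀ x, ∃ k, P x k) :
    Measurable fun x => sInf {k | P x k} := by
  classical
  have : (fun x => sInf {k | P x k}) = fun x => Nat.find (hex x) := by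
    funext x
    exact Nat.sInf_def (s := {k | P x k}) (hex x)
  rw [this]
  exact measurable_find hex fun k => measurableSet_setOfPred.2 (hP k)

theorem meas_kk {p : ℕ} (hp : p.Prime) : Measurable fun A : S n => kk p (loc p A.1) := by
  refine meas_sInf (P := fun (A : S n) k => K p (loc p A.1) k) (fun k => ?_)
    fun A => exists_K hp _
  exact Measurable.forall fun j => Measurable.forall fun a => (meas_loc p a).imp
    (Measurable.exists fun b => (meas_loc p b).and measurable_const)

open Classical in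
/-- The canonical lattice of `A` at `p`. -/
noncomputable def Th (p : ℕ) (A : S n) : Set (V n) := if p.Prime then Th0 p (loc p A.1) else ∅

theorem Th_prime {p : ℕ} (hp : p.Prime) (A : S n) : Th p A = Th0 p (loc p A.1) := if_pos hp

theorem pc_Th (p : ℕ) : PC (Th (n := n) p) := by
  by_cases hp : p.Prime
  · have : Th (n := n) p = fun A : S n => Th0 p (loc p A.1) := funext (Th_prime hp)
    rw [this]
    refine PC.of_set ((countable_range_Th hp).mono ?_) fun v => ?_
    · rintro _ ⟨A, rfl⟩
      exact ⟨A.1, rfl⟩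
    · exact (meas_loc p v).and
        ((Measurable.of_discrete (f := fun k : ℕ => p ^ k • v ∈ Mp n p)).comp (meas_kk hp))
  · have : Th (n := n) p = fun _ => ∅ := funext fun A => if_neg hp
    rw [this]
    exact PC.const _

theorem Th_smul {p : ℕ} (hp : p.Prime) {g : GG n} (hg : g • Mp n p = Mp n p) (A : S n) :
    Th p (g • A) = g • Th p A := by
  rw [Th_prime hp, Th_prime hp, smul_val, loc_smul, Th0_smul hg]

theorem meas_R (φ : Module.End ℚ (V n)) : Measurable fun A : S n => φ ∈ R A.1 :=
  Measurable.exists fun _ => measurable_const.and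
    (Measurable.forall fun a => (meas_mem a).imp (meas_mem _))

theorem pc_St : PC fun A : S n => St A.1 := by
  have h1 : PC fun A : S n => (R A.1 : Set (Module.End ℚ (V n))) := by
    refine PC.of_set ((countable_range fun N : Submodule ℚ (Module.End ℚ (V n)) =>
      (N : Set (Module.End ℚ (V n)))).mono ?_) meas_R
    rintro _ ⟨A, rfl⟩
    exact ⟨_, rfl⟩
  refine h1.of_determined fun A B h => ?_
  have h2 : R A.1 = R B.1 := SetLike.coe_injective h
  ext g
  rw [mem_St, mem_St, h2]

theorem meas_Good (p : ℕ) : Measurable fun A : S n => Good p A.1 := by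
  refine Measurable.forall fun s => ((meas_R _).and (meas_R _)).imp (measurable_const.imp ?_)
  simp only [AddSubgroup.ext_iff, mem_smul_iff]
  exact Measurable.forall fun v => (meas_loc p _).iff (meas_loc p _)

/-- A bound beyond which all primes are good. -/
noncomputable def NN (A : S n) : ℕ := sInf {N | ∀ p : ℕ, p.Prime → N ≤ p → Good p A.1}

theorem NN_spec (A : S n) {p : ℕ} (hp : p.Prime) (h : NN A ≤ p) : Good p A.1 :=
  Nat.sInf_mem (exists_bound_Good A.1) p hp h

theorem meas_NN : Measurable (NN (n := n)) :=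
  meas_sInf (P := fun (A : S n) N => ∀ p : ℕ, p.Prime → N ≤ p → Good p A.1)
    (fun _ => Measurable.forall fun p => measurable_const.imp (measurable_const.imp (meas_Good p)))
    fun A => exists_bound_Good A.1

/-- The finitely many bad local data. -/
noncomputable def rr (A : S n) : ℕ × (ℕ → Set (V n)) :=
  (NN A, fun p => if p < NN A then Th p A else ∅)

theorem pc_rr : PC (rr (n := n)) := by
  refine PC.glue (u := NN (n := n))
    (h := fun N A => (N, fun p => if p < N then Th p A else ∅)) (PC.of_nat meas_NN) fun N => ?_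
  refine PC.finset (Finset.range N) pc_Th fun A B h => ?_
  refine Prod.ext rfl (funext fun p => ?_)
  by_cases hp : p < N
  · simp only [if_pos hp, h p (Finset.mem_range.2 hp)]
  · simp only [if_neg hp]

/-- The module of integer functions on triples (prime, set, set). -/
def WW (n : ℕ) : Type := ℕ × Set (V n) × Set (V n) → ℤ

instance : AddCommGroup (WW n) := inferInstanceAs (AddCommGroup (ℕ × Set (V n) × Set (V n) → ℤ))

instance : DistribMulAction (GG n) (WW n) where
  smul g f := fun i => f (i.1, g⁻¹ • i.2.1, g⁻¹ • i.2.2)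
  one_smul f := by
    funext i
    change f (i.1, (1 : GG n)⁻¹ • i.2.1, (1 : GG n)⁻¹ • i.2.2) = f i
    simp
  mul_smul g h f := by
    funext i
    change f (i.1, (g * h)⁻¹ • i.2.1, (g * h)⁻¹ • i.2.2) =
      f (i.1, h⁻¹ • g⁻¹ • i.2.1, h⁻¹ • g⁻¹ • i.2.2)
    rw [mul_inv_rev, mul_smul, mul_smul]
  smul_zero _ := rfl
  smul_add _ _ _ := rfl

/-- The orbit predicate. -/
def ZP (H : Subgroup (GG n)) (p : ℕ) (Θ X Y : Set (V n)) : Prop :=
  p.Prime ∧ ∃ s ∈ H, X = s • (Mp n p : Set (V n)) ∧ Y = s • Θ

open Classical in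
/-- The indicator function of the orbits of the local data. -/
noncomputable def zz (A : S n) : WW n :=
  fun i => if ZP (St A.1) i.1 (Th i.1 A) i.2.1 i.2.2 then 1 else 0

theorem ZP_smul {p : ℕ} {g : GG n} (hg : p.Prime → g • Mp n p = Mp n p) (A : S n)
    (X Y : Set (V n)) :
    ZP (St (g • A).1) p (Th p (g • A)) X Y ↔ ZP (St A.1) p (Th p A) (g⁻¹ • X) (g⁻¹ • Y) := by
  refine and_congr_right fun hp => ?_
  have hg' : g • (Mp n p : Set (V n)) = Mp n p :=
    congrArg (fun B : AddSubgroup (V n) => (B : Set (V n))) (hg hp)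
  have hg'' : g⁻¹ • (Mp n p : Set (V n)) = Mp n p := by
    rw [inv_smul_eq_iff, hg']
  rw [Th_smul hp (hg hp), smul_val]
  constructor
  · rintro ⟨s, hs, rfl, rfl⟩
    refine ⟨g⁻¹ * s * g, (mem_St_smul g s A.1).1 hs, ?_, ?_⟩
    · rw [mul_smul, mul_smul, hg']
    · rw [mul_smul, mul_smul]
  · rintro ⟨s, hs, h1, h2⟩
    refine ⟨g * s * g⁻¹, (mem_St_smul g _ A.1).2 (by simpa [mul_assoc] using hs), ?_, ?_⟩
    · rw [mul_smul, mul_smul, hg'', ← h1, smul_inv_smul]
    · rw [mul_smul, mul_smul, inv_smul_smul, ← h2, smul_inv_smul]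

theorem zz_fix (A : S n) (s : GG n) (hs : s ∈ St A.1) : s • zz A = zz A := by
  classical
  funext i
  change (if ZP (St A.1) i.1 (Th i.1 A) (s⁻¹ • i.2.1) (s⁻¹ • i.2.2) then (1 : ℤ) else 0) =
    if ZP (St A.1) i.1 (Th i.1 A) i.2.1 i.2.2 then 1 else 0
  refine if_congr (and_congr_right fun _ => ?_) rfl rfl
  constructor
  · rintro ⟨t, ht, h1, h2⟩
    refine ⟨s * t, (St A.1).mul_mem hs ht, ?_, ?_⟩
    · rw [mul_smul, ← h1, smul_inv_smul]
    · rw [mul_smul, ← h2, smul_inv_smul]
  · rintro ⟨t, ht, h1, h2⟩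
    refine ⟨s⁻¹ * t, (St A.1).mul_mem ((St A.1).inv_mem hs) ht, ?_, ?_⟩
    · rw [mul_smul, ← h1]
    · rw [mul_smul, ← h2]

theorem pc_zz (g : GG n) : PC fun A : S n => zz (g • A) - g • zz A := by
  classical
  obtain ⟨N, hN⟩ := exists_bound_Mp g
  have h1 : ∀ p, PC fun A : S n => ((St A.1, St (g • A).1), (Th p A, Th p (g • A))) := fun p =>
    (pc_St.prod (pc_St.precomp (meas_smul g))).prod
      ((pc_Th p).prod ((pc_Th p).precomp (meas_smul g)))
  refine PC.finset (Finset.range N) h1 fun A B h => ?_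
  funext i
  change (if ZP (St (g • A).1) i.1 (Th i.1 (g • A)) i.2.1 i.2.2 then (1 : ℤ) else 0) -
      (if ZP (St A.1) i.1 (Th i.1 A) (g⁻¹ • i.2.1) (g⁻¹ • i.2.2) then (1 : ℤ) else 0) =
    (if ZP (St (g • B).1) i.1 (Th i.1 (g • B)) i.2.1 i.2.2 then (1 : ℤ) else 0) -
      (if ZP (St B.1) i.1 (Th i.1 B) (g⁻¹ • i.2.1) (g⁻¹ • i.2.2) then (1 : ℤ) else 0)
  by_cases hi : i.1 < N
  · have h2 := h i.1 (Finset.mem_range.2 hi)
    simp only [Prod.mk.injEq] at h2
    obtain ⟨⟨h3, h4⟩, h5, h6⟩ := h2
    rw [h3, h4, h5, h6]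
  · have h2 : i.1.Prime → g • Mp n i.1 = Mp n i.1 := fun hp => hN _ hp (not_lt.1 hi)
    simp only [ZP_smul h2, sub_self]

theorem zz_inj (A : S n) (s : GG n) (hs : s ∈ St A.1) (hz : zz (s • A) = zz A)
    (hr : rr (s • A) = rr A) : s • A = A := by
  classical
  have hTh : ∀ p : ℕ, p.Prime → Th p (s • A) = Th p A := by
    intro p hp
    have h1 : NN (s • A) = NN A := congrArg Prod.fst hr
    by_cases hN : p < NN A
    · have h2 := congrFun (congrArg Prod.snd hr) p
      simpa only [rr, h1, if_pos hN] using h2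
    · have hgood := NN_spec A hp (not_lt.1 hN)
      have h2 := congrFun hz (p, (Mp n p : Set (V n)), Th p (s • A))
      have h3 : ZP (St (s • A).1) p (Th p (s • A)) (Mp n p) (Th p (s • A)) :=
        ⟨hp, 1, Subgroup.one_mem _, by simp, by simp⟩
      simp only [zz, if_pos h3] at h2
      have h4 : ZP (St A.1) p (Th p A) (Mp n p) (Th p (s • A)) := by
        by_contra h4
        rw [if_neg h4] at h2
        exact one_ne_zero h2
      obtain ⟨-, t, ht, h5, h6⟩ := h4
      have h7 : t • Mp n p = Mp n p := SetLike.coe_injective h5.symm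
      rw [h6, Th_prime hp, ← Th0_smul h7, hgood t ht h7]
  obtain ⟨m, hm, h1⟩ := hs.1
  obtain ⟨m', hm', h2⟩ := hs.2
  refine Subtype.ext (le_antisymm ?_ ?_)
  · intro v hv
    refine mem_of_forall_loc fun p hp => loc_le_of_Th0 hp hm (A := (s • A).1) ?_ ?_
      (le_loc p _ hv)
    · intro a ha
      have := h1 _ (mem_smul_iff.1 ha)
      change m • s • s⁻¹ • a ∈ A.1 at this
      rwa [smul_inv_smul] at this
    · rw [← Th_prime hp, ← Th_prime hp, hTh p hp]
  · intro v hv
    refine mem_of_forall_loc fun p hp => loc_le_of_Th0 hp hm' (B := (s • A).1) ?_ ?_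
      (le_loc p _ hv)
    · intro a ha
      rw [smul_val, mem_smul_iff, smul_comm]
      exact h2 a ha
    · rw [← Th_prime hp, ← Th_prime hp, hTh p hp]

theorem iso_essentiallyFree (n : ℕ) : EssentiallyFree (Iso n) := by
  have : Iso n = fun A B : S n => ∃ g : GG n, g • A = B := by
    funext A B
    exact propext (iso_iff A B)
  rw [this]
  exact essFree_of_data meas_smul (fun A => St A.1) zz rr
    (fun g A s => mem_St_smul g s A.1)
    (fun g A h => mem_St_of_smul_eq (congrArg Subtype.val h))
    zz_fix zz_inj pc_St pc_rr pc_zz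

end Pool.Agent.P.MP_98674e_lc
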