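import Pool.Agent.P.MP_98674e_lc.Defs

/-! The quasi-isomorphism relation on rank `n` subgroups of `ℚ^n`. -/

namespace Pool.Agent.P.MP_98674e_lc

/-- The two groups have isomorphic subgroups of finite index. -/
def QuasiIsomorphic (G H : Type) [AddGroup G] [AddGroup H] : Prop :=
  ∃ (G' : AddSubgroup G) (H' : AddSubgroup H),
    G'.FiniteIndex ∧ H'.FiniteIndex ∧ Nonempty (G' ≃+ H')

/-- The relation `∼_n`: the two subgroups are quasi-isomorphic as abstract groups. -/
def QIso (n : ℕ) (A B : S n) : Prop := QuasiIsomorphic A.1 B.1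

end Pool.Agent.P.MP_98674e_lc
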