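import Pool.Agent.P.MP_98674e_lc.Abstract

/-! Cocycles on an equivalence relation whose classes are enumerated by countably many Borel
maps. -/

set_option linter.unusedSectionVars false
set_option linter.style.haveILetI false

namespace Pool.Agent.P.MP_98674e_lc

open Set
open scoped Pointwise

theorem essFree_of_rel_countable {X : Type} [MeasurableSpace X] [StandardBorelSpace X]
    {ι L : Type} [Countable ι] [Nonempty ι] [Group L] [Countable L] {E : X → X → Prop} (hE : Equivalence E)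
    (f : ι → X → X) (hf : ∀ i, Measurable (f i)) (hEf : ∀ x y, E x y ↔ ∃ i, f i x = y)
    (β : X → X → L) (hcoc : ∀ x y w, E x y → E y w → β x w = β y w * β x y)
    (hker : ∀ x y, E x y → (β x y = 1 ↔ x = y))
    (hmeas : ∀ i l, MeasurableSet {x | β x (f i x) = l}) : EssentiallyFree E := by
  classical
  letI : MeasurableSpace L := ⊤
  haveI : DiscreteMeasurableSpace L := ⟨fun _ => trivial⟩
  obtain ⟨enc, henc⟩ := Countable.exists_injective_nat L
  obtain ⟨e, he⟩ := exists_surjective_nat ι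
  let sk : ι → X × L → X × L := fun i p => (f i p.1, β p.1 (f i p.1) * p.2)
  let R : X × L → X × L → Prop := fun p q => E p.1 q.1 ∧ q.2 = β p.1 q.1 * p.2
  have hR1 : ∀ p, R p p := fun p => ⟨hE.refl _, by rw [(hker _ _ (hE.refl _)).2 rfl, one_mul]⟩
  have hR2 : ∀ p q, R p q → R q p := fun p q h => ⟨hE.symm h.1, by
    rw [h.2, ← mul_assoc, ← hcoc _ _ _ h.1 (hE.symm h.1), (hker _ _ (hE.refl _)).2 rfl, one_mul]⟩
  have hR3 : ∀ p q w, R p q → R q w → R p w := fun p q w h h' => ⟨hE.trans h.1 h'.1, by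
    rw [h'.2, h.2, ← mul_assoc, ← hcoc _ _ _ h.1 h'.1]⟩
  have hRs : ∀ p q, R p q ↔ ∃ i, sk i p = q := by
    intro p q
    constructor
    · rintro ⟨h1, h2⟩
      obtain ⟨i, hi⟩ := (hEf _ _).1 h1
      exact ⟨i, Prod.ext hi (by simp only [sk, hi, h2])⟩
    · rintro ⟨i, rfl⟩
      exact ⟨(hEf _ _).2 ⟨i, rfl⟩, rfl⟩
  have hRm : ∀ p q (m : L), R p q → R (p.1, p.2 * m) (q.1, q.2 * m) :=
    fun p q m h => ⟨h.1, by simp only [h.2, mul_assoc]⟩
  have hβ : ∀ i, Measurable fun x => β x (f i x) := fun i =>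
    measurable_to_countable' fun l => hmeas i l
  have hsk : ∀ i, Measurable (sk i) := by
    intro i
    refine Measurable.prodMk ((hf i).comp measurable_fst) ?_
    refine measurable_from_prod_countable_left fun l => ?_
    exact (Measurable.of_discrete (f := fun a : L => a * l)).comp (hβ i)
  have hencm : Measurable enc := Measurable.of_discrete
  let T : Set (X × L) := {p | ∀ q, R p q → enc p.2 ≤ enc q.2}
  have hT : MeasurableSet T := by
    have : T = ⋂ i, {p | enc p.2 ≤ enc (sk i p).2} := by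
      ext p
      simp only [T, hRs, mem_ofPred_eq, mem_iInter]
      exact ⟨fun h i => h _ ⟨i, rfl⟩, fun h q ⟨i, hi⟩ => hi ▸ h i⟩
    rw [this]
    refine MeasurableSet.iInter fun i => ?_
    exact measurableSet_le (hencm.comp measurable_snd)
      (hencm.comp (measurable_snd.comp (hsk i)))
  have hex : ∀ p : X × L, ∃ n, sk (e n) p ∈ T := by
    intro p
    obtain ⟨_, ⟨q, hq, rfl⟩, hmin⟩ := (wellFounded_lt (α := ℕ)).has_min
      ((fun q : X × L => enc q.2) '' {q | R p q}) ⟨_, p, hR1 p, rfl⟩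
    obtain ⟨i, rfl⟩ := (hRs _ _).1 hq
    obtain ⟨n, rfl⟩ := he i
    exact ⟨n, fun w hw => not_lt.1 (hmin _ ⟨w, hR3 _ _ _ hq hw, rfl⟩)⟩
  let rep : X × L → T := fun p => ⟨sk (e (Nat.find (hex p))) p, Nat.find_spec (hex p)⟩
  have hrepm : Measurable rep := by
    refine Measurable.subtype_mk ?_
    exact Measurable.find (f := fun n p => sk (e n) p) (fun n => hsk (e n))
      (fun n => hT.preimage (hsk (e n))) hex
  have hrep : ∀ p, R p (rep p).1 := fun p => (hRs _ _).2 ⟨_, rfl⟩
  have hrep_eq : ∀ (p : X × L) (t : T), R p t.1 → rep p = t := by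
    intro p t ht
    have h1 := hR3 _ _ _ (hR2 _ _ ht) (hrep p)
    have h2 : t.1.2 = (rep p).1.2 := henc (le_antisymm (t.2 _ h1) ((rep p).2 _ (hR2 _ _ h1)))
    have h3 : β t.1.1 (rep p).1.1 = 1 := by simpa [h2] using h1.2
    exact Subtype.ext (Prod.ext ((hker _ _ h1.1).1 h3).symm h2.symm)
  letI act : MulAction L T :=
    { smul := fun m t => rep (t.1.1, t.1.2 * m⁻¹)
      one_smul := fun t => hrep_eq _ _ (by simpa using hR1 t.1)
      mul_smul := by
        intro a b t
        refine hrep_eq _ _ (hR3 _ _ _ ?_ (hrep _))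
        rw [mul_inv_rev, ← mul_assoc]
        exact hRm _ _ a⁻¹ (hrep (t.1.1, t.1.2 * b⁻¹)) }
  have hsmul : ∀ (m : L) (t : T), m • t = rep (t.1.1, t.1.2 * m⁻¹) := fun _ _ => rfl
  have hactm : ∀ m : L, Measurable fun t : T => m • t := by
    intro m
    simp only [hsmul]
    refine hrepm.comp (Measurable.prodMk (measurable_fst.comp measurable_subtype_coe) ?_)
    exact (Measurable.of_discrete (f := fun a : L => a * m⁻¹)).comp
      (measurable_snd.comp measurable_subtype_coe)
  have horb : ∀ t t' : T, (∃ m : L, m • t = t') ↔ E t.1.1 t'.1.1 := by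
    intro t t'
    constructor
    · rintro ⟨m, rfl⟩
      exact (hrep (t.1.1, t.1.2 * m⁻¹)).1
    · intro h
      refine ⟨(t'.1.2)⁻¹ * (β t.1.1 t'.1.1 * t.1.2), hrep_eq _ _ ⟨h, ?_⟩⟩
      simp [mul_assoc]
  haveI : StandardBorelSpace T := hT.standardBorel
  refine ⟨T, inferInstance, inferInstance, fun t t' => ∃ m : L, m • t = t', ⟨?_, ?_, ?_⟩,
    ⟨L, inferInstance, inferInstance, act, hactm, ?_, fun _ _ => Iff.rfl⟩, ?_, ?_⟩
  · simp only [horb]
    exact ⟨fun _ => hE.refl _, hE.symm, hE.trans⟩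
  · have : {p : T × T | ∃ m : L, m • p.1 = p.2} = ⋃ m : L, {p : T × T | m • p.1 = p.2} := by
      ext p; simp
    rw [this]
    exact MeasurableSet.iUnion fun m =>
      measurableSet_eq_fun ((hactm m).comp measurable_fst) measurable_snd
  · intro t
    exact countable_range (fun m : L => m • t)
  · intro m t hmt
    have h1 := (hrep (t.1.1, t.1.2 * m⁻¹)).2
    rw [← hsmul, hmt] at h1
    simpa [(hker _ _ (hE.refl t.1.1)).2 rfl] using h1
  · refine ⟨fun x => rep (x, 1), hrepm.comp (measurable_id.prodMk measurable_const), ?_⟩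
    intro x x'
    beta_reduce
    rw [horb]
    have h1 := (hrep (x, 1)).1
    have h2 := (hrep (x', 1)).1
    exact ⟨fun h => hE.trans (hE.symm h1) (hE.trans h h2),
      fun h => hE.trans h1 (hE.trans h (hE.symm h2))⟩
  · exact ⟨fun t => t.1.1, measurable_fst.comp measurable_subtype_coe, horb⟩

theorem essFree_of_rel {X : Type} [MeasurableSpace X] [StandardBorelSpace X]
    {ι L : Type} [Countable ι] [Nonempty ι] [Monoid L] {E : X → X → Prop} (hE : Equivalence E)
    (f : ι → X → X) (hf : ∀ i, Measurable (f i)) (hEf : ∀ x y, E x y ↔ ∃ i, f i x = y)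
    (β : X → X → L) (hcoc : ∀ x y w, E x y → E y w → β x w = β y w * β x y)
    (hker : ∀ x y, E x y → (β x y = 1 ↔ x = y)) (hpc : ∀ i, PC fun x => β x (f i x)) :
    EssentiallyFree E := by
  classical
  have h1 : ∀ x y, E x y → β x y * β y x = 1 := fun x y h => by
    rw [← hcoc _ _ _ (hE.symm h) h, (hker _ _ (hE.refl _)).2 rfl]
  let u : ∀ x y, E x y → Lˣ := fun x y h => ⟨β x y, β y x, h1 _ _ h, h1 _ _ (hE.symm h)⟩
  have hfi : ∀ i x, E x (f i x) := fun i x => (hEf _ _).2 ⟨i, rfl⟩
  have hu : ∀ i, PC fun x => u x (f i x) (hfi i x) := fun i =>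
    (hpc i).of_determined fun x y h => Units.ext h
  let s : Set Lˣ := ⋃ i, range fun x => u x (f i x) (hfi i x)
  have hs : s.Countable := countable_iUnion fun i => (hu i).1
  haveI : Countable s := hs.to_subtype
  haveI : Countable (Subgroup.closure s) := by
    rw [FreeGroup.closure_eq_range]
    exact (countable_range _).to_subtype
  have hus : ∀ x y (h : E x y), u x y h ∈ Subgroup.closure s := by
    intro x y h
    obtain ⟨i, rfl⟩ := (hEf _ _).1 h
    exact Subgroup.subset_closure (mem_iUnion.2 ⟨i, x, rfl⟩)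
  refine essFree_of_rel_countable hE f hf hEf
    (fun x y => if h : E x y then (⟨u x y h, hus x y h⟩ : Subgroup.closure s) else 1) ?_ ?_ ?_
  · intro x y w h h'
    rw [dif_pos h, dif_pos h', dif_pos (hE.trans h h')]
    exact Subtype.ext (Units.ext (hcoc _ _ _ h h'))
  · intro x y h
    rw [dif_pos h, ← hker x y h, Subtype.ext_iff, Units.ext_iff]
    rfl
  · intro i l
    simp only [dif_pos (hfi i _), Subtype.ext_iff]
    exact (hu i).2 _

theorem essFree_of_qdata {X : Type} [MeasurableSpace X] [StandardBorelSpace X]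
    {G : Type} [Group G] [Countable G] [MulAction G X]
    {W : Type} [AddCommGroup W] [DistribMulAction G W] {C ι : Type} [Countable ι] [Nonempty ι]
    (hG : ∀ g : G, Measurable fun x : X => g • x) {Q : X → X → Prop} (hQ : Equivalence Q)
    (hQG : ∀ (g : G) x y, Q x y → Q (g • x) (g • y))
    (c : ι → X → X) (hc : ∀ j, Measurable (c j)) (hQc : ∀ x y, Q x y ↔ ∃ j, c j x = y)
    (S : X → Subgroup G) (z : X → W) (r : X → C) (hSQ : ∀ s x, s ∈ S x ↔ Q (s • x) x)
    (hfix : ∀ x, ∀ s ∈ S x, s • z x = z x)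
    (hinj : ∀ x y, Q x y → z x = z y → r x = r y → x = y)
    (hS : PC S) (hr : PC r) (hz : ∀ g : G, PC fun x => z (g • x) - g • z x)
    (hzc : ∀ j, PC fun x => z (c j x) - z x) :
    EssentiallyFree (fun x y : X => ∃ g : G, Q (g • x) y) := by
  classical
  have hconj : ∀ (g : G) x y, Q (g • x) y → ∀ s, s ∈ S y ↔ g⁻¹ * s * g ∈ S x := by
    intro g x y h s
    rw [hSQ, hSQ]
    constructor
    · intro h'
      have := hQG g⁻¹ _ _ (hQ.trans (hQG s _ _ h) (hQ.trans h' (hQ.symm h)))
      rwa [inv_smul_smul, ← mul_smul, ← mul_smul] at this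
    · intro h'
      have := hQG g _ _ h'
      rw [mul_smul, mul_smul, smul_inv_smul] at this
      exact hQ.trans (hQ.symm (hQG s _ _ h)) (hQ.trans this h)
  let nx : X → X := fun x => (tau (S x))⁻¹ • x
  let ng : G → X → X → G := fun g x y => (tau (S y))⁻¹ * g * tau (S x)
  let H : X → Subgroup G := fun x => base (S x)
  have hnx : ∀ g x y, Q (g • x) y → Q (ng g x y • nx x) (nx y) := by
    intro g x y h
    simpa [nx, ng, mul_smul] using hQG (tau (S y))⁻¹ _ _ h
  have hSnx : ∀ x, S (nx x) = H x := by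
    intro x
    ext s
    rw [hconj _ x (nx x) (hQ.refl _), tau_spec]
    simp [mul_assoc, H]
  have hH : ∀ (g : G) x y, Q (g • x) y → H y = H x := fun g x y h => base_eq g (hconj g x y h)
  have hnorm : ∀ g x y, Q (g • x) y → ∀ s ∈ H x, (ng g x y)⁻¹ * s * ng g x y ∈ H x := by
    intro g x y h s hs
    rw [← hSnx, ← hconj _ _ _ (hnx g x y h), hSnx, hH g x y h]
    exact hs
  let D : G → X → X → W := fun g x y => z (nx y) - ng g x y • z (nx x)
  have hD : ∀ g x y, Q (g • x) y → ∀ s ∈ H x, s • D g x y = D g x y := by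
    intro g x y h s hs
    have h1 : s • z (nx y) = z (nx y) := hfix _ _ (by rw [hSnx, hH g x y h]; exact hs)
    have h2 := hfix (nx x) _ (by rw [hSnx]; exact hnorm g x y h s hs)
    have h3 : s • ng g x y • z (nx x) = ng g x y • z (nx x) := by
      conv_rhs => rw [← h2]
      simp [← mul_smul, mul_assoc]
    simp only [D, smul_sub, h1, h3]
  let b : G → X → X → Function.End (W × Set G) := fun g x y => aff (H x) (ng g x y) (D g x y)
  have hb : ∀ g h x y w, Q (h • x) y → b (g * h) x w = b g y w * b h x y := by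
    intro g h x y w h1
    have h2 : ng (g * h) x w = ng g y w * ng h x y := by simp [ng, mul_assoc]
    simp only [b]
    rw [hH h x y h1, aff_mul (hnorm h x y h1) (hD h x y h1), h2]
    congr 1
    simp only [D, smul_sub, h2, mul_smul]
    abel
  have hbone : ∀ g x, Q (g • x) x → b g x x = 1 := by
    intro g x hgx
    have h2 : ng g x x ∈ H x := by rw [← hSnx, hSQ]; exact hnx g x x hgx
    have h3 : D g x x = 0 := by
      simp only [D]
      rw [hfix (nx x) _ (by rw [hSnx]; exact h2), sub_self]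
    simp only [b]
    rw [h3, aff_eq_one h2]
  have hind : ∀ g g' x y, Q (g • x) y → Q (g' • x) y → b g x y = b g' x y := by
    intro g g' x y h h'
    have h1 : Q ((g⁻¹ * g') • x) x := by
      simpa [mul_smul] using hQG g⁻¹ _ _ (hQ.trans h' (hQ.symm h))
    have := hb g (g⁻¹ * g') x x y h1
    rw [hbone _ _ h1, mul_one, mul_inv_cancel_left] at this
    exact this.symm
  let γ : X → X → G := fun x y => Classical.epsilon fun g => Q (g • x) y
  have hγ : ∀ x y, (∃ g : G, Q (g • x) y) → Q (γ x y • x) y := fun x y h =>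
    Classical.epsilon_spec h
  have htr : ∀ (g h : G) x y w, Q (h • x) y → Q (g • y) w → Q ((g * h) • x) w :=
    fun g h x y w h1 h2 => hQ.trans (mul_smul g h x ▸ hQG g _ _ h1) h2
  let ρ : X → (Subgroup G × C) →₀ ℤ := fun x => Finsupp.single (S x, r (nx x)) 1
  have hcQ : ∀ j x, Q x (c j x) := fun j x => (hQc _ _).2 ⟨j, rfl⟩
  refine essFree_of_rel (ι := G × ι) ⟨fun x => ⟨1, by simpa using hQ.refl x⟩, ?_, ?_⟩
    (fun i x => c i.2 (i.1 • x)) (fun i => (hc i.2).comp (hG i.1)) (by simp [hQc])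
    (fun x y => (b (γ x y) x y, Multiplicative.ofAdd (ρ y - ρ x))) ?_ ?_ ?_
  · rintro x y ⟨g, h⟩
    exact ⟨g⁻¹, hQ.symm (by simpa using hQG g⁻¹ _ _ h)⟩
  · rintro x y w ⟨g, h⟩ ⟨g', h'⟩
    exact ⟨_, htr _ _ _ _ _ h h'⟩
  · intro x y w h h'
    have h1 := htr _ _ _ _ _ (hγ _ _ h) (hγ _ _ h')
    refine Prod.ext ((hind _ _ _ _ (hγ _ _ ⟨_, h1⟩) h1).trans (hb _ _ _ _ _ (hγ _ _ h))) ?_
    change Multiplicative.ofAdd (ρ w - ρ x) =
      Multiplicative.ofAdd (ρ w - ρ y) * Multiplicative.ofAdd (ρ y - ρ x)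
    rw [← ofAdd_add, sub_add_sub_cancel]
  · intro x y h
    constructor
    · intro h1
      have h2 : b (γ x y) x y = 1 := congrArg Prod.fst h1
      have h3 : ρ y - ρ x = 0 := congrArg (fun p => Multiplicative.toAdd p.2) h1
      obtain ⟨h4, h5⟩ := of_aff_eq_one h2
      have h6 : (S y, r (nx y)) = (S x, r (nx x)) :=
        Finsupp.single_left_injective one_ne_zero (sub_eq_zero.1 h3)
      rw [← hSnx] at h4
      have h9 : z (nx y) = z (nx x) := by rw [sub_eq_zero.1 h5, hfix _ _ h4]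
      have h10 := hinj _ _ (hQ.trans (hQ.symm (hnx _ _ _ (hγ _ _ h))) ((hSQ _ _).1 h4)) h9
        (congrArg Prod.snd h6)
      have h7 : S y = S x := congrArg Prod.fst h6
      simp only [nx, h7] at h10
      exact (smul_left_cancel _ h10).symm
    · rintro rfl
      refine Prod.ext (hbone _ _ (hγ _ _ h)) ?_
      change Multiplicative.ofAdd (ρ x - ρ x) = 1
      rw [sub_self]
      rfl
  · rintro ⟨g, j⟩
    have hm : Measurable fun x => c j (g • x) := (hc j).comp (hG g)
    have hrn : PC fun x => r (nx x) :=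
      PC.glue (u := S) (h := fun K x => r ((tau K)⁻¹ • x)) hS fun K => hr.precomp (hG _)
    have hzn : PC fun x => z (nx x) - (tau (S x))⁻¹ • z x :=
      PC.glue (u := S) (h := fun K x => z ((tau K)⁻¹ • x) - (tau K)⁻¹ • z x) hS fun K => hz _
    refine ((((hS.prod (hS.precomp hm)).prod (hrn.prod (hrn.precomp hm))).prod
      (hzn.prod (hzn.precomp hm))).prod (((hzc j).precomp (hG g)).prod (hz g))).of_determined ?_
    intro x y hxy
    simp only [Prod.mk.injEq] at hxy
    obtain ⟨⟨⟨⟨h1, h2⟩, h3, h4⟩, h5, h6⟩, h7, h8⟩ := hxy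
    have hDx : ∀ x, D g x (c j (g • x)) =
        (z (nx (c j (g • x))) - (tau (S (c j (g • x))))⁻¹ • z (c j (g • x))) +
        (tau (S (c j (g • x))))⁻¹ • ((z (c j (g • x)) - z (g • x)) + (z (g • x) - g • z x)) -
        ng g x (c j (g • x)) • (z (nx x) - (tau (S x))⁻¹ • z x) := by
      intro x
      simp only [D, ng, smul_sub, smul_add, mul_smul, smul_inv_smul]
      abel
    refine Prod.ext ?_ ?_
    · change b (γ x _) x _ = b (γ y _) y _
      rw [hind _ _ _ _ (hγ _ _ ⟨g, hcQ j _⟩) (hcQ j _), hind _ _ _ _ (hγ _ _ ⟨g, hcQ j _⟩) (hcQ j _)]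
      simp only [b]
      rw [hDx x, hDx y, h5, h6, h7, h8]
      simp only [H, ng, h1, h2]
    · change Multiplicative.ofAdd (ρ _ - ρ x) = Multiplicative.ofAdd (ρ _ - ρ y)
      simp only [ρ, h1, h2, h3, h4]

end Pool.Agent.P.MP_98674e_lc
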