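import Pool.Agent.P.MP_98674e_lc.Main
import Pool.Agent.P.MP_98674e_lc.QRel
import Pool.Agent.P.MP_98674e_lc.QDefs

/-! The quasi-isomorphism relation on rank `n` subgroups of `ℚ^n` is essentially free. -/

set_option linter.unusedSectionVars false
set_option linter.style.haveILetI false

namespace Pool.Agent.P.MP_98674e_lc

open Set
open scoped Pointwise

variable {n : ℕ}

theorem finiteIndex_nsmul (A : AddSubgroup (V n)) {m : ℕ} (hm : 0 < m) :
    (nsmulAddMonoidHom (α := A) m).range.FiniteIndex := by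
  classical
  refine @AddSubgroup.finiteIndex_of_finite_quotient _ _ _ (not_infinite_iff_finite.1 fun h => ?_)
  obtain ⟨s, hs⟩ := Infinite.exists_subset_card_eq (A ⧸ (nsmulAddMonoidHom (α := A) m).range)
    (m ^ n + 1)
  let L : Submodule ℤ (V n) := Submodule.span ℤ (s.image fun x => ((x.out : A) : V n))
  haveI : Module.Finite ℤ L := Module.Finite.span_finset ℤ _
  have h1 : Module.finrank ℤ L ≤ n := Module.finrank_le_of_rank_le ((Submodule.rank_le L).trans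
    (by rw [← IsFractionRing.rank_right_eq ℤ ℚ, rank_fin_fun]))
  have h2 := AddSubgroup.index_range_nsmul L m
  haveI : (nsmulAddMonoidHom (α := L) m).range.FiniteIndex := ⟨by rw [h2]; positivity⟩
  have hL : ∀ v ∈ L, v ∈ A := fun v hv =>
    (Submodule.span_le (p := AddSubgroup.toIntSubmodule A)).2 (by
      intro w hw
      obtain ⟨x, _, rfl⟩ := Finset.mem_image.1 hw
      exact (x.out : A).2) hv
  let φ : s → L ⧸ (nsmulAddMonoidHom (α := L) m).range := fun x =>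
    ((⟨(x.1.out : A), Submodule.subset_span (Finset.mem_image_of_mem _ x.2)⟩ : L) : _ ⧸ _)
  have h3 : Function.Injective φ := by
    intro x y hxy
    obtain ⟨w, hw⟩ := QuotientAddGroup.eq.1 hxy
    refine Subtype.ext ?_
    rw [← QuotientAddGroup.out_eq' x.1, ← QuotientAddGroup.out_eq' y.1]
    exact QuotientAddGroup.eq.2 ⟨⟨w.1, hL _ w.2⟩, Subtype.ext (congrArg Subtype.val hw :)⟩
  have h4 := Nat.card_le_card_of_injective φ h3
  rw [← AddSubgroup.index_eq_card, h2, Nat.card_eq_fintype_card, Fintype.card_coe, hs] at h4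
  have := Nat.pow_le_pow_right hm h1
  omega

theorem exists_reps (A : AddSubgroup (V n)) {m : ℕ} (hm : 0 < m) : ∃ T : Finset (V n),
    (∀ t ∈ T, t ∈ A) ∧ ∀ a ∈ A, ∃ b ∈ A, ∃ t ∈ T, m • b + t = a := by
  classical
  haveI := finiteIndex_nsmul A hm
  haveI := Fintype.ofFinite (A ⧸ (nsmulAddMonoidHom (α := A) m).range)
  refine ⟨Finset.univ.image fun x : A ⧸ (nsmulAddMonoidHom (α := A) m).range =>
    ((x.out : A) : V n), fun t ht => ?_, fun a ha => ?_⟩
  · obtain ⟨x, _, rfl⟩ := Finset.mem_image.1 ht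
    exact (x.out : A).2
  · obtain ⟨b, hb⟩ := QuotientAddGroup.eq.1 (QuotientAddGroup.out_eq'
      (((⟨a, ha⟩ : A) : A ⧸ (nsmulAddMonoidHom (α := A) m).range)))
    refine ⟨b, b.2, _, Finset.mem_image_of_mem _ (Finset.mem_univ ((⟨a, ha⟩ : A) : A ⧸ _)), ?_⟩
    have := congrArg Subtype.val hb
    change m • (b : V n) = -_ + a at this
    rw [this]
    abel

/-- Quasi-equality. -/
def QE (A B : S n) : Prop := ∃ m : ℕ, 0 < m ∧ (∀ a ∈ A.1, m • a ∈ B.1) ∧ ∀ b ∈ B.1, m • b ∈ A.1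

theorem QE.of_two {A B : S n} {m k : ℕ} (hm : 0 < m) (hk : 0 < k) (h1 : ∀ a ∈ A.1, m • a ∈ B.1)
    (h2 : ∀ b ∈ B.1, k • b ∈ A.1) : QE A B :=
  ⟨k * m, mul_pos hk hm, fun a ha => by rw [mul_smul]; exact B.1.nsmul_mem (h1 a ha) k,
    fun b hb => by rw [mul_comm, mul_smul]; exact A.1.nsmul_mem (h2 b hb) m⟩

theorem QE_equiv : Equivalence (QE (n := n)) := by
  refine ⟨fun A => ⟨1, one_pos, by simp, by simp⟩, fun ⟨m, h, h1, h2⟩ => ⟨m, h, h2, h1⟩, ?_⟩
  rintro A B C ⟨m, h, h1, h2⟩ ⟨k, h', h3, h4⟩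
  exact ⟨k * m, mul_pos h' h, fun a ha => by rw [mul_smul]; exact h3 _ (h1 a ha),
    fun a ha => by rw [mul_comm, mul_smul]; exact h2 _ (h4 a ha)⟩

theorem QE_smul (g : GG n) (A B : S n) (h : QE A B) : QE (g • A) (g • B) := by
  obtain ⟨m, h, h1, h2⟩ := h
  refine ⟨m, h, fun a ha => ?_, fun a ha => ?_⟩ <;> rw [smul_val, mem_smul_iff] at ha ⊢ <;>
    rw [smul_comm]
  exacts [h1 _ ha, h2 _ ha]

theorem mem_St_iff (s : GG n) (A : S n) : s ∈ St A.1 ↔ QE (s • A) A := by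
  constructor
  · rintro ⟨⟨m, hm, h1⟩, k, hk, h2⟩
    refine QE.of_two hm hk (fun a ha => ?_) fun a ha => ?_
    · have := h1 _ (mem_smul_iff.1 ha)
      change m • s • s⁻¹ • a ∈ A.1 at this
      rwa [smul_inv_smul] at this
    · rw [smul_val, mem_smul_iff, smul_comm]
      exact h2 a ha
  · rintro ⟨m, hm, h1, h2⟩
    refine ⟨⟨m, hm, fun a ha => h1 _ (mem_smul_iff.2 ?_)⟩, m, hm, fun a ha => ?_⟩
    · change s⁻¹ • s • a ∈ A.1
      rwa [inv_smul_smul]
    · have := h2 a ha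
      rw [smul_val, mem_smul_iff, smul_comm] at this
      exact this

theorem St_eq {A B : S n} (h : QE A B) : St A.1 = St B.1 := by
  ext s
  rw [mem_St_iff, mem_St_iff]
  have h1 := QE_smul s _ _ h
  exact ⟨fun h' => QE_equiv.trans (QE_equiv.symm h1) (QE_equiv.trans h' h),
    fun h' => QE_equiv.trans h1 (QE_equiv.trans h' (QE_equiv.symm h))⟩

theorem span_of_nsmul {A : S n} {B : AddSubgroup (V n)} {m : ℕ} (hm : 0 < m)
    (h : ∀ a ∈ A.1, m • a ∈ B) : Submodule.span ℚ (B : Set (V n)) = ⊤ := by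
  rw [eq_top_iff, ← A.2, Submodule.span_le]
  intro a ha
  have h1 := Submodule.smul_mem _ (m : ℚ)⁻¹
    (Submodule.subset_span (R := ℚ) (s := (B : Set (V n))) (show _ ∈ (B : Set (V n)) from h a ha))
  rwa [← Nat.cast_smul_eq_nsmul ℚ, inv_smul_smul₀ (by exact_mod_cast hm.ne')] at h1

open Classical in
/-- The groups `m A + ⟨T⟩`. -/
noncomputable def cc (j : ℕ × Finset (V n)) (A : S n) : S n :=
  if h : 0 < j.1 ∧ ∀ t ∈ j.2, j.1 • t ∈ A.1 then
    ⟨A.1.map (nsmulAddMonoidHom j.1) ⊔ AddSubgroup.closure j.2, span_of_nsmul h.1 fun a ha =>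
      AddSubgroup.mem_sup_left ⟨a, ha, rfl⟩⟩
  else A

theorem cc_neg {j : ℕ × Finset (V n)} {A : S n} (h : ¬ (0 < j.1 ∧ ∀ t ∈ j.2, j.1 • t ∈ A.1)) :
    cc j A = A := dif_neg h

theorem mem_cc {j : ℕ × Finset (V n)} {A : S n} (h : 0 < j.1 ∧ ∀ t ∈ j.2, j.1 • t ∈ A.1)
    (v : V n) : v ∈ (cc j A).1 ↔
      ∃ a, a ∈ A.1 ∧ ∃ w ∈ AddSubgroup.closure (j.2 : Set (V n)), j.1 • a + w = v := by
  have : (cc j A).1 = A.1.map (nsmulAddMonoidHom j.1) ⊔ AddSubgroup.closure j.2 :=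
    congrArg Subtype.val (dif_pos h : cc j A = _)
  rw [this, AddSubgroup.mem_sup]
  exact ⟨fun ⟨_, ⟨a, ha, e⟩, hw⟩ => ⟨a, ha, (show j.1 • a = _ from e) ▸ hw⟩, fun ⟨a, ha, hw⟩ => ⟨_, ⟨a, ha, rfl⟩, hw⟩⟩

theorem cc_spec (j : ℕ × Finset (V n)) (A : S n) : ∃ m, 0 < m ∧ m ≤ j.1 + 1 ∧
    (∀ a ∈ A.1, m • a ∈ (cc j A).1) ∧ ∀ b ∈ (cc j A).1, m • b ∈ A.1 := by
  by_cases h : 0 < j.1 ∧ ∀ t ∈ j.2, j.1 • t ∈ A.1
  · refine ⟨j.1, h.1, by omega, fun a ha => (mem_cc h _).2 ⟨a, ha, 0, zero_mem _, add_zero _⟩,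
      fun b hb => ?_⟩
    obtain ⟨a, ha, w, hw, rfl⟩ := (mem_cc h _).1 hb
    rw [smul_add]
    have h1 : AddSubgroup.closure (j.2 : Set (V n)) ≤ A.1.comap (nsmulAddMonoidHom j.1) :=
      (AddSubgroup.closure_le _).2 fun t ht => h.2 t ht
    exact A.1.add_mem (A.1.nsmul_mem (A.1.nsmul_mem ha _) _) (h1 hw)
  · rw [cc_neg h]
    exact ⟨1, one_pos, by omega, by simp, by simp⟩

theorem QE_iff (A B : S n) : QE A B ↔ ∃ j, cc j A = B := by
  constructor
  · rintro ⟨m, hm, h1, h2⟩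
    obtain ⟨T, h3, h4⟩ := exists_reps B.1 (mul_pos hm hm)
    refine ⟨(m, T), Subtype.ext (AddSubgroup.ext fun v => ?_)⟩
    rw [mem_cc ⟨hm, fun t ht => h2 t (h3 t ht)⟩]
    constructor
    · rintro ⟨a, ha, w, hw, rfl⟩
      exact B.1.add_mem (h1 a ha) ((AddSubgroup.closure_le B.1).2 h3 hw)
    · intro hv
      obtain ⟨b, hb, t, ht, rfl⟩ := h4 v hv
      exact ⟨_, h2 b hb, t, AddSubgroup.subset_closure ht, by rw [mul_smul]⟩
  · rintro ⟨j, rfl⟩
    obtain ⟨m, h, -, h'⟩ := cc_spec j A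
    exact ⟨m, h, h'⟩

theorem meas_cc (j : ℕ × Finset (V n)) : Measurable (cc j) := by
  refine measurable_comap_iff.2 (measurable_set_iff.2 fun v => ?_)
  have : (fun A : S n => v ∈ ((cc j A).1 : Set (V n))) = fun A : S n =>
      ((0 < j.1 ∧ ∀ t ∈ j.2, j.1 • t ∈ A.1) ∧
        ∃ a, a ∈ A.1 ∧ ∃ w ∈ AddSubgroup.closure (j.2 : Set (V n)), j.1 • a + w = v) ∨
      ¬ (0 < j.1 ∧ ∀ t ∈ j.2, j.1 • t ∈ A.1) ∧ v ∈ A.1 := by
    funext A
    by_cases h : 0 < j.1 ∧ ∀ t ∈ j.2, j.1 • t ∈ A.1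
    · rw [SetLike.mem_coe, mem_cc h, and_iff_right h, or_iff_left fun h' => h'.1 h]
    · rw [SetLike.mem_coe, cc_neg h, or_iff_right fun h' => h h'.1, and_iff_right h]
  have h1 : Measurable fun A : S n => 0 < j.1 ∧ ∀ t ∈ j.2, j.1 • t ∈ A.1 :=
    measurable_const.and (Measurable.forall fun _ => measurable_const.imp (meas_mem _))
  exact this ▸ (h1.and (Measurable.exists fun a => (meas_mem a).and measurable_const)).or
    (h1.not.and (meas_mem v))

theorem pc_cc (j : ℕ × Finset (V n)) : PC fun A : S n => zz (cc j A) - zz A := by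
  classical
  have h1 : ∀ p, PC fun A : S n => (St A.1, (Th p A, Th p (cc j A))) := fun p =>
    pc_St.prod ((pc_Th p).prod ((pc_Th p).precomp (meas_cc j)))
  have h0 : ∀ A : S n, St (cc j A).1 = St A.1 := fun A => (St_eq ((QE_iff _ _).2 ⟨j, rfl⟩)).symm
  refine PC.finset (Finset.range (j.1 + 2)) h1 fun A B h => ?_
  funext i
  change (if ZP (St (cc j A).1) i.1 (Th i.1 (cc j A)) i.2.1 i.2.2 then (1 : ℤ) else 0) -
      (if ZP (St A.1) i.1 (Th i.1 A) i.2.1 i.2.2 then (1 : ℤ) else 0) =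
    (if ZP (St (cc j B).1) i.1 (Th i.1 (cc j B)) i.2.1 i.2.2 then (1 : ℤ) else 0) -
      (if ZP (St B.1) i.1 (Th i.1 B) i.2.1 i.2.2 then (1 : ℤ) else 0)
  rw [h0, h0]
  by_cases hi : i.1 < j.1 + 2
  · have h2 := h i.1 (Finset.mem_range.2 hi)
    simp only [Prod.mk.injEq] at h2
    rw [h2.1, h2.2.1, h2.2.2]
  · have h2 : ∀ A : S n, Th i.1 (cc j A) = Th i.1 A := by
      intro A
      by_cases hp : i.1.Prime
      · obtain ⟨m, h3, h4, h5, h6⟩ := cc_spec j A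
        have h7 := coprime_of_lt hp h3 (by omega)
        rw [Th_prime hp, Th_prime hp, le_antisymm (a := loc i.1 (cc j A).1) (b := loc i.1 A.1)
          (fun v hv => map_loc 1 h7 h6 hv) fun v hv => map_loc 1 h7 h5 hv]
      · simp only [Th, if_neg hp]
    simp only [h2, sub_self]

theorem zz_inj' (A B : S n) (hs : QE A B) (hz : zz A = zz B) (hr : rr A = rr B) : A = B := by
  classical
  have hTh : ∀ p : ℕ, p.Prime → Th p A = Th p B := by
    intro p hp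
    have h1 : NN A = NN B := congrArg Prod.fst hr
    by_cases hN : p < NN B
    · have h2 := congrFun (congrArg Prod.snd hr) p
      simpa only [rr, h1, if_pos hN] using h2
    · have hgood := NN_spec B hp (not_lt.1 hN)
      have h2 := congrFun hz (p, (Mp n p : Set (V n)), Th p A)
      have h3 : ZP (St A.1) p (Th p A) (Mp n p) (Th p A) :=
        ⟨hp, 1, Subgroup.one_mem _, by simp, by simp⟩
      simp only [zz, if_pos h3] at h2
      have h4 : ZP (St B.1) p (Th p B) (Mp n p) (Th p A) := by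
        by_contra h4
        rw [if_neg h4] at h2
        exact one_ne_zero h2
      obtain ⟨-, t, ht, h5, h6⟩ := h4
      have h7 : t • Mp n p = Mp n p := SetLike.coe_injective h5.symm
      rw [h6, Th_prime hp, ← Th0_smul h7, hgood t ht h7]
  obtain ⟨m, hm, h1, h2⟩ := hs
  refine Subtype.ext (le_antisymm (fun v hv => ?_) fun v hv => ?_)
  · refine mem_of_forall_loc fun p hp => loc_le_of_Th0 hp hm h1 ?_ (le_loc p _ hv)
    rw [← Th_prime hp, ← Th_prime hp, hTh p hp]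
  · refine mem_of_forall_loc fun p hp => loc_le_of_Th0 hp hm h2 ?_ (le_loc p _ hv)
    rw [← Th_prime hp, ← Th_prime hp, hTh p hp]

theorem exists_sub (A : S n) (A' : AddSubgroup A.1) (h : A'.FiniteIndex) :
    ∃ C : S n, QE A C ∧ Nonempty (A' ≃+ C.1) := by
  have h1 : ∀ a ∈ A.1, A'.index • a ∈ A'.map A.1.subtype := fun a ha =>
    ⟨_, A'.nsmul_index_mem ⟨a, ha⟩, rfl⟩
  have h2 := Nat.pos_of_ne_zero h.index_ne_zero
  refine ⟨⟨_, span_of_nsmul h2 h1⟩, ⟨_, h2, h1, ?_⟩,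
    ⟨A'.equivMapOfInjective _ Subtype.val_injective⟩⟩
  rintro _ ⟨a, _, rfl⟩
  exact A.1.nsmul_mem a.2 _

theorem qiso_iff (A B : S n) : QIso n A B ↔ ∃ g : GG n, QE (g • A) B := by
  constructor
  · rintro ⟨A', B', h1, h2, ⟨e⟩⟩
    obtain ⟨C, h3, ⟨e1⟩⟩ := exists_sub A A' h1
    obtain ⟨D, h4, ⟨e2⟩⟩ := exists_sub B B' h2
    obtain ⟨g, rfl⟩ := (iso_iff C D).1 ⟨e1.symm.trans (e.trans e2)⟩
    exact ⟨g, QE_equiv.trans (QE_smul g _ _ h3) (QE_equiv.symm h4)⟩
  · rintro ⟨g, m, hm, h1, h2⟩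
    haveI := finiteIndex_nsmul A.1 hm
    haveI := finiteIndex_nsmul B.1 hm
    refine ⟨(g⁻¹ • B).1.addSubgroupOf A.1, (g • A).1.addSubgroupOf B.1,
      AddSubgroup.finiteIndex_of_le (H := (nsmulAddMonoidHom m).range) ?_,
      AddSubgroup.finiteIndex_of_le (H := (nsmulAddMonoidHom m).range) ?_, ⟨?_⟩⟩
    · rintro _ ⟨a, rfl⟩
      refine mem_smul_iff.2 ?_
      change g⁻¹⁻¹ • m • a.1 ∈ B.1
      rw [inv_inv, smul_comm]
      exact h1 _ (mem_smul_iff.2 (by simp))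
    · rintro _ ⟨b, rfl⟩
      exact h2 _ b.2
    · exact
        { toFun := fun a => ⟨⟨g • a.1.1, by simpa using mem_smul_iff.1 a.2⟩,
            mem_smul_iff.2 (by simp)⟩
          invFun := fun b => ⟨⟨g⁻¹ • b.1.1, mem_smul_iff.1 b.2⟩, mem_smul_iff.2 (by simp)⟩
          left_inv := fun a => Subtype.ext (Subtype.ext (inv_smul_smul g a.1.1))
          right_inv := fun b => Subtype.ext (Subtype.ext (smul_inv_smul g b.1.1))
          map_add' := fun a b => Subtype.ext (Subtype.ext (smul_add g a.1.1 b.1.1)) }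

theorem qiso_essentiallyFree (n : ℕ) : EssentiallyFree (QIso n) := by
  have : QIso n = fun A B : S n => ∃ g : GG n, QE (g • A) B := by
    funext A B
    exact propext (qiso_iff A B)
  rw [this]
  exact essFree_of_qdata meas_smul QE_equiv QE_smul cc meas_cc QE_iff (fun A => St A.1) zz rr
    mem_St_iff zz_fix zz_inj' pc_St pc_rr pc_zz pc_cc

end Pool.Agent.P.MP_98674e_lc
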